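import Pool.Agent.Work.MP_a03d92_mp.PartB.Exist

/-!
# Part B-II : ground states, stability, the lattice gas statement
-/

set_option autoImplicit false

open Filter Topology MeasureTheory

namespace Pool.Agent.MPa03d92

variable {n : ℕ}

theorem bad0_nonneg (H V : Fin n → Fin n → Prop) (x : Pt → Fin n) : 0 ≤ bad0 H V x := by
  unfold bad0; split_ifs <;> norm_num

theorem bad0_le_one (H V : Fin n → Fin n → Prop) (x : Pt → Fin n) : bad0 H V x ≤ 1 := by
  unfold bad0; split_ifs <;> norm_num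

theorem valid_of_integral {H V : Fin n → Fin n → Prop} {ν : Measure (Pt → Fin n)}
    [IsProbabilityMeasure ν] (hν : Inv2 ν) (h : ∫ x, bad0 H V x ∂ν ≤ 0) :
    ∀ᵐ x ∂ν, Valid H V x := by
  have hz : ∀ z : Pt, ∀ᵐ x ∂ν, Good H V x z := by
    intro z
    have hl : Loc (fun x => bad0 H V (sh z x)) := (Loc_bad0 H V).pcomp_sh z
    have h3 : ∫ x, bad0 H V (sh z x) ∂ν = 0 := by
      rw [integral_shift hν (Loc_bad0 H V)]
      exact le_antisymm h (integral_nonneg (bad0_nonneg H V))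
    have h4 : ∀ x : Pt → Fin n, 0 ≤ bad0 H V (sh z x) := fun x => bad0_nonneg H V _
    rw [integral_eq_zero_iff_of_nonneg h4 (hl.integrable ν)] at h3
    filter_upwards [h3] with x hx
    by_contra hcon
    rw [Pi.zero_apply] at hx
    unfold bad0 at hx
    rw [if_neg (by rw [Good_sh, zero_add]; exact hcon)] at hx
    exact one_ne_zero hx
  rw [← ae_all_iff] at hz
  exact hz

/-- surface energy bound for a ground state -/
theorem ground_box {H V : Fin n → Fin n → Prop} {x0 : Pt → Fin n} (h0 : Valid H V x0)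
    {X : Pt → Fin n}
    (hX : ∀ Y : Pt → Fin n, {i | Y i ≠ X i}.Finite → 0 ≤ D (bad0 H V) Y X) (m : ℕ) :
    ∑ z ∈ box ((m + 2 : ℕ) : ℤ), bad0 H V (sh z X) ≤ 16 * m + 24 := by
  classical
  set Y : Pt → Fin n := fun z => if z ∈ box ((m + 1 : ℕ) : ℤ) then x0 z else X z with hY
  have hfin : {i | Y i ≠ X i}.Finite := by
    refine (box ((m + 1 : ℕ) : ℤ)).finite_toSet.subset fun z hz => ?_
    by_contra hcon
    apply hz
    rw [Finset.mem_coe] at hcon
    simp only [hY, if_neg hcon]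
  have h1 := hX Y hfin
  have hsub : Function.support (fun z : Pt => bad0 H V (sh z Y) - bad0 H V (sh z X)) ⊆
      (box ((m + 2 : ℕ) : ℤ) : Set Pt) := by
    intro z hz
    by_contra hcon
    apply hz
    change bad0 H V (sh z Y) - bad0 H V (sh z X) = 0
    rw [Finset.mem_coe, mem_box] at hcon
    have hout : ∀ w : Pt, (∀ k, z k ≤ w k ∧ w k ≤ z k + 1) → Y w = X w := by
      intro w hw
      simp only [hY]
      rw [if_neg]
      rw [mem_box]
      intro hbox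
      apply hcon
      intro k
      have := hbox k
      have := hw k
      push_cast at *
      omega
    have : Good H V (sh z Y) 0 ↔ Good H V (sh z X) 0 := by
      rw [Good_sh, Good_sh, zero_add]
      refine Good_congr (hout _ ?_) (hout _ ?_) (hout _ ?_)
      · intro k; omega
      · intro k; fin_cases k <;> simp [e0]
      · intro k; fin_cases k <;> simp [e1]
    unfold bad0
    simp only [this, sub_self]
  unfold D at h1
  rw [finsum_eq_sum_of_support_subset _ hsub, Finset.sum_sub_distrib] at h1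
  have hin : ∀ z ∈ box (m : ℤ), bad0 H V (sh z Y) = 0 := by
    intro z hz
    rw [mem_box] at hz
    have hin' : ∀ w : Pt, (∀ k, z k ≤ w k ∧ w k ≤ z k + 1) → Y w = x0 w := by
      intro w hw
      simp only [hY]
      rw [if_pos]
      rw [mem_box]
      intro k
      have := hz k
      have := hw k
      push_cast at *
      omega
    have : Good H V (sh z Y) 0 ↔ Good H V (sh z x0) 0 := by
      rw [Good_sh, Good_sh, zero_add]
      refine Good_congr (hin' _ ?_) (hin' _ ?_) (hin' _ ?_)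
      · intro k; omega
      · intro k; fin_cases k <;> simp [e0]
      · intro k; fin_cases k <;> simp [e1]
    unfold bad0
    rw [if_pos (this.2 ((h0.psh z) 0))]
  have hss : box (m : ℤ) ⊆ box ((m + 2 : ℕ) : ℤ) := by
    intro z hz
    rw [mem_box] at hz ⊢
    intro k
    have := hz k
    push_cast
    omega
  have h2 : ∑ z ∈ box ((m + 2 : ℕ) : ℤ), bad0 H V (sh z Y) ≤ 16 * m + 24 := by
    rw [← Finset.sum_sdiff hss, Finset.sum_eq_zero hin, add_zero]
    calc ∑ z ∈ box ((m + 2 : ℕ) : ℤ) \ box (m : ℤ), bad0 H V (sh z Y)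
        ≤ ∑ z ∈ box ((m + 2 : ℕ) : ℤ) \ box (m : ℤ), (1 : ℝ) :=
          Finset.sum_le_sum fun z _ => bad0_le_one H V _
      _ = ((box ((m + 2 : ℕ) : ℤ) \ box (m : ℤ)).card : ℝ) := by simp
      _ = 16 * m + 24 := by
          rw [Finset.card_sdiff_of_subset hss, Nat.cast_sub (Finset.card_le_card hss), card_box,
            card_box]
          push_cast
          ring
  linarith

theorem valid_of_ground {H V : Fin n → Fin n → Prop} {x0 : Pt → Fin n} (h0 : Valid H V x0)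
    {ν : Measure (Pt → Fin n)} [IsProbabilityMeasure ν] (hν : Inv2 ν)
    (hg : ∀ᵐ X ∂ν, ∀ Y : Pt → Fin n, {i | Y i ≠ X i}.Finite → 0 ≤ D (bad0 H V) Y X) :
    ∀ᵐ x ∂ν, Valid H V x := by
  apply valid_of_integral hν
  set β := ∫ x, bad0 H V x ∂ν with hβ
  have hm : ∀ m : ℕ, (2 * m + 5) * β ≤ 8 := by
    intro m
    have h1 : ∫ x, ∑ z ∈ box ((m + 2 : ℕ) : ℤ), bad0 H V (sh z x) ∂ν ≤ 16 * m + 24 := by
      calc _ ≤ ∫ _, (16 * m + 24 : ℝ) ∂ν := by
            refine integral_mono_ae ?_ (integrable_const _) ?_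
            · exact integrable_finset_sum _ fun z _ => ((Loc_bad0 H V).pcomp_sh z).integrable ν
            · filter_upwards [hg] with X hX
              exact ground_box h0 hX m
        _ = _ := by simp
    rw [integral_finset_sum _ fun z _ => ((Loc_bad0 H V).pcomp_sh z).integrable ν] at h1
    have h2 : ∀ z ∈ box ((m + 2 : ℕ) : ℤ), ∫ x, bad0 H V (sh z x) ∂ν = β :=
      fun z _ => integral_shift hν (Loc_bad0 H V) z
    rw [Finset.sum_congr rfl h2, Finset.sum_const, card_box, nsmul_eq_mul] at h1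
    push_cast at h1
    have h3 : (0 : ℝ) < 2 * m + 5 := by positivity
    have h4 : (2 * (m : ℝ) + 5) * ((2 * m + 5) * β) ≤ (2 * m + 5) * 8 := by nlinarith
    exact le_of_mul_le_mul_left h4 h3
  by_contra hcon
  push Not at hcon
  obtain ⟨m, hm'⟩ := exists_nat_gt (8 / β)
  rw [div_lt_iff₀ hcon] at hm'
  nlinarith [hm m, (Nat.cast_nonneg m : (0 : ℝ) ≤ m)]

theorem ground_of_valid {H V : Fin n → Fin n → Prop} {X : Pt → Fin n} (hX : Valid H V X)
    (Y : Pt → Fin n) (h : {i | Y i ≠ X i}.Finite) :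
    ∑ᶠ Λ : Finset Pt, (Phi0 H V Λ Y - Phi0 H V Λ X) = (Bad H V Y).ncard := by
  rw [inter_Phi0, D_bad0_valid hX h]

/-- ground state measures in dimension two -/
def GSM2 (n : ℕ) (Φ : Finset Pt → (Pt → Fin n) → ℝ) (μ : Measure (Pt → Fin n)) : Prop :=
  IsProbabilityMeasure μ ∧
    (∀ a : Pt, μ.map (fun X : Pt → Fin n => fun i => X (i - a)) = μ) ∧
    (∀ᵐ X ∂μ, ∀ Y : Pt → Fin n, {i | Y i ≠ X i}.Finite →
      0 ≤ ∑ᶠ Λ : Finset Pt, (Φ Λ Y - Φ Λ X))

theorem sub_eq_sh (a : Pt) :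
    (fun X : Pt → Fin n => fun i : Pt => X (i - a)) = (sh (-a) : (Pt → Fin n) → (Pt → Fin n)) := by
  funext X i
  simp [sub_eq_add_neg]

theorem inv_iff (μ : Measure (Pt → Fin n)) :
    (∀ a : Pt, μ.map (fun X : Pt → Fin n => fun i => X (i - a)) = μ) ↔ Inv2 μ := by
  constructor
  · intro h v
    have := h (-v)
    rwa [sub_eq_sh, neg_neg] at this
  · intro h a
    rw [sub_eq_sh]
    exact h _

/-- B-II. -/
theorem of_coh (n : ℕ) (H V : Fin n → Fin n → Prop) (x0 : Pt → Fin n) (h0 : Valid H V x0)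
    (hnp : ∀ x, Valid H V x → ∀ a : Pt, a ≠ 0 → sh a x ≠ x)
    (hcoh : ∀ f : (Pt → Fin n) → ℝ, Loc f → f ∈ Cob H V) :
    ∃ d : ℕ, 1 ≤ d ∧ ∃ n : ℕ,
    ∃ Adm : (Finset (Fin d → ℤ) → ((Fin d → ℤ) → Fin n) → ℝ) → Prop,
    (∀ Φ, Adm Φ ↔
      (∀ (Λ : Finset (Fin d → ℤ)) (X Y : (Fin d → ℤ) → Fin n),
          (∀ i ∈ Λ, X i = Y i) → Φ Λ X = Φ Λ Y) ∧
      (∀ (Λ : Finset (Fin d → ℤ)) (X : (Fin d → ℤ) → Fin n) (a : Fin d → ℤ),
          Φ (Λ.image (fun i => i + a)) (fun i => X (i - a)) = Φ Λ X) ∧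
      (∃ R : ℕ, ∀ Λ : Finset (Fin d → ℤ),
          (∃ i ∈ Λ, ∃ j ∈ Λ, ∃ k : Fin d, (R : ℤ) < |i k - j k|) →
          ∀ X : (Fin d → ℤ) → Fin n, Φ Λ X = 0)) ∧
    ∃ GSM : (Finset (Fin d → ℤ) → ((Fin d → ℤ) → Fin n) → ℝ) →
        Measure ((Fin d → ℤ) → Fin n) → Prop,
    (∀ Φ μ, GSM Φ μ ↔
      IsProbabilityMeasure μ ∧
      (∀ a : Fin d → ℤ,
          μ.map (fun X : (Fin d → ℤ) → Fin n => fun i => X (i - a)) = μ) ∧
      (∀ᵐ X ∂μ, ∀ Y : (Fin d → ℤ) → Fin n, {i | Y i ≠ X i}.Finite →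
          0 ≤ ∑ᶠ Λ : Finset (Fin d → ℤ), (Φ Λ Y - Φ Λ X))) ∧
    ∃ Φ, Adm Φ ∧ ∃ μ, GSM Φ μ ∧ (∀ ν, GSM Φ ν → ν = μ) ∧
      μ {X | ∃ a : Fin d → ℤ, a ≠ 0 ∧ (fun i => X (i - a)) = X} = 0 ∧
      ∀ Φ', Adm Φ' → ∃ ε₀ : ℝ, 0 < ε₀ ∧ ∀ ε : ℝ, 0 ≤ ε → ε < ε₀ →
        GSM (fun Λ X => Φ Λ X + ε * Φ' Λ X) μ := by
  obtain ⟨μ, pμ, iμ, vμ⟩ := exists_inv h0
  refine ⟨2, by norm_num, n, Adm2 n, fun _ => Iff.rfl, GSM2 n, fun _ _ => Iff.rfl,
    Phi0 H V, adm_Phi0 H V, μ, ⟨pμ, (inv_iff μ).2 iμ, ?_⟩, ?_, ?_, ?_⟩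
  · filter_upwards [vμ] with X hX Y h
    rw [ground_of_valid hX Y h]
    positivity
  · rintro ν ⟨pν, hν, gν⟩
    rw [inv_iff] at hν
    refine unique_inv hcoh pν pμ hν iμ (valid_of_ground h0 hν ?_) vμ
    filter_upwards [gν] with X hX Y h
    rw [← inter_Phi0]
    exact hX Y h
  · refine measure_mono_null ?_ (ae_iff.1 vμ)
    rintro X ⟨a, ha, hXa⟩ hX
    have := hnp X hX (-a) (neg_ne_zero.2 ha)
    apply this
    rw [← congrFun (sub_eq_sh a) X]
    exact hXa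
  · intro Φ' hΦ'
    obtain ⟨f, hf, hfD⟩ := inter_eq_D hΦ'
    obtain ⟨-, C, hC0, hC⟩ := energy (hcoh f hf)
    refine ⟨1 / (C + 1), by positivity, fun ε hε hε' => ⟨pμ, (inv_iff μ).2 iμ, ?_⟩⟩
    filter_upwards [vμ] with X hX Y h
    have h1 : ∑ᶠ Λ : Finset Pt, ((Phi0 H V Λ Y + ε * Φ' Λ Y) - (Phi0 H V Λ X + ε * Φ' Λ X)) =
        (Bad H V Y).ncard + ε * D f Y X := by
      rw [← ground_of_valid hX Y h, ← hfD X Y h, mul_finsum, ← finsum_add_distrib]
      · refine finsum_congr fun Λ => by ring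
      · exact supp_finite_inter (adm_Phi0 H V) h
      · refine (supp_finite_inter hΦ' h).subset fun Λ hΛ => ?_
        rw [Function.mem_support] at hΛ ⊢
        intro h0
        exact hΛ (by rw [h0, mul_zero])
    rw [h1]
    have h2 := hC X Y hX h
    have h3 : -(C * (Bad H V Y).ncard) ≤ D f Y X := (abs_le.1 h2).1
    have h4 : ε * C ≤ 1 := by
      have : ε * (C + 1) < 1 := by rwa [lt_div_iff₀ (by positivity)] at hε'
      nlinarith
    have h5 : (0 : ℝ) ≤ (Bad H V Y).ncard := by positivity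
    nlinarith [mul_le_mul_of_nonneg_left h3 hε, mul_le_mul_of_nonneg_right h4 h5]

end Pool.Agent.MPa03d92
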