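import Pool.Agent.Work.MP_a03d92_mp.PartB.Sub

/-!
# Part B-I: every local function is in `Cob`
-/

set_option autoImplicit false

namespace Pool.Agent.MPa03d92

/-! ### Closure properties of local functions -/

section loc

variable {T : Type}

theorem Loc.of_point (z : Pt) (φ : T → ℝ) : Loc (fun x : Pt → T => φ (x z)) :=
  ⟨{z}, fun x y h => by
    show φ (x z) = φ (y z)
    rw [h z (by simp)]⟩

theorem Loc.const (c : ℝ) : Loc (fun _ : Pt → T => c) := ⟨∅, fun _ _ _ => rfl⟩

theorem Loc.map₂ {f g : (Pt → T) → ℝ} (hf : Loc f) (hg : Loc g) (op : ℝ → ℝ → ℝ) :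
    Loc (fun x => op (f x) (g x)) := by
  classical
  obtain ⟨F, hF⟩ := hf
  obtain ⟨G, hG⟩ := hg
  refine ⟨F ∪ G, fun x y h => ?_⟩
  show op (f x) (g x) = op (f y) (g y)
  rw [hF x y fun i hi => h i (Finset.mem_union_left _ hi),
    hG x y fun i hi => h i (Finset.mem_union_right _ hi)]

theorem Loc.add {f g : (Pt → T) → ℝ} (hf : Loc f) (hg : Loc g) : Loc (fun x => f x + g x) :=
  hf.map₂ hg (· + ·)

theorem Loc.sub {f g : (Pt → T) → ℝ} (hf : Loc f) (hg : Loc g) : Loc (fun x => f x - g x) :=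
  hf.map₂ hg (· - ·)

theorem Loc.mul {f g : (Pt → T) → ℝ} (hf : Loc f) (hg : Loc g) : Loc (fun x => f x * g x) :=
  hf.map₂ hg (· * ·)

theorem Loc.sum {ι : Type*} (s : Finset ι) {f : ι → (Pt → T) → ℝ} (hf : ∀ i ∈ s, Loc (f i)) :
    Loc (fun x => ∑ i ∈ s, f i x) := by
  classical
  induction s using Finset.induction_on with
  | empty => simpa using Loc.const 0
  | insert a s ha ih =>
    simp only [Finset.sum_insert ha]
    exact (hf a (Finset.mem_insert_self _ _)).add
      (ih fun i hi => hf i (Finset.mem_insert_of_mem hi))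

/-- composition with a map each of whose output coordinates depends on finitely many inputs -/
theorem Loc.comp {T' : Type} {f : (Pt → T) → ℝ} (hf : Loc f) (D : (Pt → T') → (Pt → T))
    (hD : ∀ z, ∃ F : Finset Pt, ∀ x y : Pt → T', (∀ i ∈ F, x i = y i) → D x z = D y z) :
    Loc (fun x => f (D x)) := by
  classical
  obtain ⟨F, hF⟩ := hf
  choose G hG using hD
  refine ⟨F.biUnion G, fun x y h => hF _ _ fun i hi => hG i x y fun j hj => ?_⟩
  exact h j (Finset.mem_biUnion.mpr ⟨i, hi, hj⟩)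

theorem Loc.comp_sh {f : (Pt → T) → ℝ} (hf : Loc f) (v : Pt) : Loc (fun x => f (sh v x)) :=
  hf.comp (sh v) fun z => ⟨{z + v}, fun x y h => h _ (by simp)⟩

end loc

namespace SubstSystem

variable (S : SubstSystem)

theorem Loc.comp_De {f : (Pt → S.T) → ℝ} (hf : Loc f) : Loc (fun x => f (S.De x)) := by
  classical
  refine hf.comp S.De fun z => ?_
  refine ⟨(Finset.range S.N ×ˢ Finset.range S.N).image fun p => S.blk z p.1 p.2,
    fun x y h => S.De_congr fun a b ha hb => h _ ?_⟩
  exact Finset.mem_image.mpr ⟨(a, b), by simp [ha, hb], rfl⟩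

theorem Loc.comp_Sub {f : (Pt → S.T) → ℝ} (hf : Loc f) : Loc (fun x => f (S.Sub x)) :=
  hf.comp S.Sub fun z => ⟨{S.fl z}, fun x y h => by unfold Sub; rw [h _ (by simp)]⟩

/-- abbreviation -/
def CC : Submodule ℝ ((Pt → S.T) → ℝ) := Cob S.H S.V

theorem CC_one : (fun _ => 1) ∈ S.CC :=
  Submodule.subset_span (Or.inl (Or.inl rfl))

theorem CC_const (c : ℝ) : (fun _ => c) ∈ S.CC := by
  have := S.CC.smul_mem c S.CC_one
  convert this using 1
  funext x
  simp

theorem CC_van {r : (Pt → S.T) → ℝ} (hr : Loc r) (h : ∀ x, Valid S.H S.V x → r x = 0) :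
    r ∈ S.CC := Submodule.subset_span (Or.inl (Or.inr ⟨hr, h⟩))

theorem CC_cob {k : (Pt → S.T) → ℝ} (hk : Loc k) (v : Pt) :
    (fun x => k x - k (sh v x)) ∈ S.CC := Submodule.subset_span (Or.inr ⟨k, v, hk, rfl⟩)

theorem CC_of_sub {f g : (Pt → S.T) → ℝ} (h : (fun x => f x - g x) ∈ S.CC) (hg : g ∈ S.CC) :
    f ∈ S.CC := by
  have := S.CC.add_mem h hg
  convert this using 1
  funext x
  simp

theorem CC_sub_trans {f g k : (Pt → S.T) → ℝ} (h : (fun x => f x - g x) ∈ S.CC)
    (h' : (fun x => g x - k x) ∈ S.CC) : (fun x => f x - k x) ∈ S.CC := by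
  have := S.CC.add_mem h h'
  convert this using 1
  funext x
  simp

theorem CC_sum {ι : Type*} (s : Finset ι) {f : ι → (Pt → S.T) → ℝ} (hf : ∀ i ∈ s, f i ∈ S.CC) :
    (fun x => ∑ i ∈ s, f i x) ∈ S.CC := by
  have := S.CC.sum_mem hf
  convert this using 1
  funext x
  simp

open Classical in
/-- indicator of the position `(a, b)` at the origin -/
noncomputable def pab (a b : ℕ) (x : Pt → S.T) : ℝ :=
  if S.px (x 0) = a ∧ S.py (x 0) = b then 1 else 0

theorem Loc_pab (a b : ℕ) : Loc (S.pab a b) := by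
  classical
  exact Loc.of_point 0 (fun t : S.T => if S.px t = a ∧ S.py t = b then (1 : ℝ) else 0)

/-- the point `(a, b)` -/
def pt (a b : ℕ) : Pt := ![a, b]

theorem pab_sh {x : Pt → S.T} (hx : Valid S.H S.V x) {a b : ℕ} (ha : a < S.N) (hb : b < S.N) :
    S.pab a b (sh (pt a b) x) = S.pab 0 0 x := by
  have h := S.mem_posGroup hx (pt a b) 0
  rw [zero_add] at h
  have e0' : (pt a b) 0 = (a : ℤ) := rfl
  have e1' : (pt a b) 1 = (b : ℤ) := rfl
  rw [e0', e1'] at h
  unfold pab
  simp only [sh_apply, zero_add]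
  congr 1
  apply propext
  constructor
  · rintro ⟨h1, h2⟩
    rw [h1, h2] at h
    constructor
    · apply S.nat_eq_of_zmod (S.px_lt _) S.N_pos
      have := h.1
      push_cast at this ⊢
      have h3 : (S.px (x 0) : ZMod S.N) + (a : ZMod S.N) = 0 + (a : ZMod S.N) := by
        rw [zero_add]; exact this.symm
      exact add_right_cancel h3
    · apply S.nat_eq_of_zmod (S.py_lt _) S.N_pos
      have := h.2
      push_cast at this ⊢
      have h3 : (S.py (x 0) : ZMod S.N) + (b : ZMod S.N) = 0 + (b : ZMod S.N) := by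
        rw [zero_add]; exact this.symm
      exact add_right_cancel h3
  · rintro ⟨h1, h2⟩
    rw [h1, h2] at h
    constructor
    · apply S.nat_eq_of_zmod (S.px_lt _) ha
      rw [h.1]
      push_cast
      ring
    · apply S.nat_eq_of_zmod (S.py_lt _) hb
      rw [h.2]
      push_cast
      ring

/-- pushing one level up -/
noncomputable def up (f : (Pt → S.T) → ℝ) (y : Pt → S.T) : ℝ :=
  ∑ a ∈ Finset.range S.N, ∑ b ∈ Finset.range S.N, f (sh (pt a b) (S.Sub y))

theorem Loc_up {f : (Pt → S.T) → ℝ} (hf : Loc f) : Loc (S.up f) :=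
  Loc.sum _ fun a _ => Loc.sum _ fun b _ => Loc.comp_Sub S (hf.comp_sh (pt a b))

/-- the lift of a function to the fine configurations -/
noncomputable def lift (g : (Pt → S.T) → ℝ) (x : Pt → S.T) : ℝ := S.pab 0 0 x * g (S.De x)

theorem sum_pab (x : Pt → S.T) :
    ∑ a ∈ Finset.range S.N, ∑ b ∈ Finset.range S.N, S.pab a b x = 1 := by
  classical
  rw [Finset.sum_eq_single (S.px (x 0))]
  · rw [Finset.sum_eq_single (S.py (x 0))]
    · simp [pab]
    · intro b _ hb
      simp [pab, hb.symm]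
    · intro h
      exact absurd (Finset.mem_range.mpr (S.py_lt _)) h
  · intro a _ ha
    apply Finset.sum_eq_zero
    intro b _
    simp [pab, ha.symm]
  · intro h
    exact absurd (Finset.mem_range.mpr (S.px_lt _)) h

/-- First half of the one-level lemma. -/
theorem sub_lift_up_mem {f : (Pt → S.T) → ℝ} (hf : Loc f) :
    (fun x => f x - S.lift (S.up f) x) ∈ S.CC := by
  have key : ∀ a ∈ Finset.range S.N, ∀ b ∈ Finset.range S.N,
      (fun x => S.pab a b x * f x - S.pab 0 0 x * f (sh (pt a b) (S.Sub (S.De x)))) ∈ S.CC := by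
    intro a ha b hb
    rw [Finset.mem_range] at ha hb
    have h1 := S.CC_cob ((S.Loc_pab a b).mul hf) (pt a b)
    refine S.CC_sub_trans h1 (S.CC_van ?_ ?_)
    · exact (((S.Loc_pab a b).mul hf).comp_sh _).sub ((S.Loc_pab 0 0).mul
        (Loc.comp_De S (Loc.comp_Sub S (hf.comp_sh (pt a b)))))
    · intro x hx
      rw [S.pab_sh hx ha hb]
      by_cases hp : S.px (x 0) = 0 ∧ S.py (x 0) = 0
      · rw [S.Sub_De hx hp.1 hp.2, sub_self]
      · have : S.pab 0 0 x = 0 := by
          unfold pab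
          rw [if_neg hp]
        rw [this]
        ring
  have h2 := S.CC_sum (Finset.range S.N) (f := fun a x => ∑ b ∈ Finset.range S.N,
    (S.pab a b x * f x - S.pab 0 0 x * f (sh (pt a b) (S.Sub (S.De x)))))
    (fun a ha => S.CC_sum (Finset.range S.N) (fun b hb => key a ha b hb))
  convert h2 using 1
  funext x
  simp only [Finset.sum_sub_distrib]
  unfold lift up
  rw [Finset.mul_sum]
  simp_rw [Finset.mul_sum, ← Finset.sum_mul]
  rw [S.sum_pab x, one_mul]

theorem pab00_mem : S.pab 0 0 ∈ S.CC := by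
  have h := S.sub_lift_up_mem (f := fun _ => 1) (Loc.const 1)
  have e : (fun x => (1 : ℝ) - S.lift (S.up fun _ => 1) x) =
      fun x => 1 - (S.N : ℝ) ^ 2 * S.pab 0 0 x := by
    funext x
    unfold lift up
    simp
    ring
  rw [e] at h
  have h2 := S.CC.sub_mem S.CC_one h
  have hN : (S.N : ℝ) ≠ 0 := by exact_mod_cast S.N_pos.ne'
  have h3 := S.CC.smul_mem (((S.N : ℝ) ^ 2)⁻¹) h2
  convert h3 using 1
  funext x
  simp only [Pi.smul_apply, Pi.sub_apply, smul_eq_mul]
  field_simp
  ring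

/-- Second half of the one-level lemma. -/
theorem lift_mem {g : (Pt → S.T) → ℝ} (hg : g ∈ S.CC) : S.lift g ∈ S.CC := by
  set L : ((Pt → S.T) → ℝ) →ₗ[ℝ] ((Pt → S.T) → ℝ) :=
    { toFun := S.lift
      map_add' := by
        intro f g
        funext x
        simp only [lift, Pi.add_apply]
        ring
      map_smul' := by
        intro c f
        funext x
        simp only [lift, Pi.smul_apply, smul_eq_mul, RingHom.id_apply]
        ring } with hL
  have hle : S.CC ≤ S.CC.comap L := by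
    refine Submodule.span_le.mpr ?_
    rintro f ((h | ⟨hr, hv⟩) | ⟨k, v, hk, rfl⟩)
    · rw [Set.mem_ofPred_eq] at h
      subst h
      show S.lift (fun _ => 1) ∈ S.CC
      have : S.lift (fun _ => 1) = S.pab 0 0 := by
        funext x
        simp [lift]
      rw [this]
      exact S.pab00_mem
    · show S.lift f ∈ S.CC
      refine S.CC_van ((S.Loc_pab 0 0).mul (Loc.comp_De S hr)) ?_
      intro x hx
      unfold lift
      by_cases hp : S.px (x 0) = 0 ∧ S.py (x 0) = 0
      · rw [hv _ (S.De_valid hx hp.1 hp.2), mul_zero]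
      · have : S.pab 0 0 x = 0 := by
          unfold pab
          rw [if_neg hp]
        rw [this, zero_mul]
    · show S.lift (fun x => k x - k (sh v x)) ∈ S.CC
      have hk' : Loc (fun x => S.pab 0 0 x * k (S.De x)) :=
        (S.Loc_pab 0 0).mul (Loc.comp_De S hk)
      have h1 := S.CC_cob hk' ((S.N : ℤ) • v)
      have h2 : (fun x => S.lift (fun x => k x - k (sh v x)) x -
          (S.pab 0 0 x * k (S.De x) - S.pab 0 0 (sh ((S.N : ℤ) • v) x) *
            k (S.De (sh ((S.N : ℤ) • v) x)))) ∈ S.CC := by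
        refine S.CC_van ?_ ?_
        · refine Loc.sub ((S.Loc_pab 0 0).mul (Loc.comp_De S (hk.sub (hk.comp_sh v)))) ?_
          exact hk'.sub (hk'.comp_sh ((S.N : ℤ) • v))
        · intro x hx
          have hp : S.pab 0 0 (sh ((S.N : ℤ) • v) x) = S.pab 0 0 x := by
            have h := S.mem_posGroup hx ((S.N : ℤ) • v) 0
            rw [zero_add] at h
            have e0' : ((S.N : ℤ) • v) 0 = (S.N : ℤ) * v 0 := rfl
            have e1' : ((S.N : ℤ) • v) 1 = (S.N : ℤ) * v 1 := rfl
            rw [e0', e1'] at h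
            push_cast at h
            rw [ZMod.natCast_self, zero_mul, add_zero, zero_mul, add_zero] at h
            have a1 := S.nat_eq_of_zmod (S.px_lt _) (S.px_lt _) h.1
            have a2 := S.nat_eq_of_zmod (S.py_lt _) (S.py_lt _) h.2
            unfold pab
            simp only [sh_apply, zero_add]
            rw [a1, a2]
          rw [hp, S.De_sh]
          unfold lift
          ring
      exact S.CC_of_sub h2 h1
  exact hle hg

/-- One-level lemma. -/
theorem mem_of_up {f : (Pt → S.T) → ℝ} (hf : Loc f) (h : S.up f ∈ S.CC) : f ∈ S.CC :=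
  S.CC_of_sub (S.sub_lift_up_mem hf) (S.lift_mem h)

/-! ### Functions of one tile -/

/-- the composition operator -/
def Lop (ψ : S.T → ℝ) (v : S.T) : ℝ :=
  ∑ a ∈ Finset.range S.N, ∑ b ∈ Finset.range S.N, ψ (S.S v a b)

theorem up_point (φ : S.T → ℝ) : S.up (fun x => φ (x 0)) = fun y => S.Lop φ (y 0) := by
  funext y
  unfold up Lop
  refine Finset.sum_congr rfl fun a ha => Finset.sum_congr rfl fun b hb => ?_
  rw [Finset.mem_range] at ha hb
  simp only [sh_apply, zero_add]
  have : pt a b = S.blk 0 a b := by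
    apply pt_ext
    · show (a : ℤ) = S.N * 0 + a; ring
    · show (b : ℤ) = S.N * 0 + b; ring
  rw [this, S.Sub_blk y 0 ha hb]

theorem point_mem_of_iterate (j : ℕ) : ∀ φ : S.T → ℝ,
    (fun y : Pt → S.T => (S.Lop^[j] φ) (y 0)) ∈ S.CC → (fun y : Pt → S.T => φ (y 0)) ∈ S.CC := by
  induction j with
  | zero => intro φ h; exact h
  | succ j ih =>
    intro φ h
    apply S.mem_of_up (Loc.of_point 0 φ)
    rw [S.up_point]
    exact ih _ h

theorem point_mem (φ : S.T → ℝ) : (fun y : Pt → S.T => φ (y 0)) ∈ S.CC := by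
  obtain ⟨k, hk⟩ := S.bal
  obtain ⟨c, hc⟩ := hk φ
  apply S.point_mem_of_iterate k
  have : (fun y : Pt → S.T => (S.Lop^[k] φ) (y 0)) = fun _ => c := by
    funext y
    exact hc (y 0)
  rw [this]
  exact S.CC_const c

/-! ### Windows -/

/-- `f` depends only on the window `[0, m]²`. -/
def Win (m : ℕ) (f : (Pt → S.T) → ℝ) : Prop :=
  ∀ x y : Pt → S.T, (∀ z : Pt, 0 ≤ z 0 → z 0 ≤ m → 0 ≤ z 1 → z 1 ≤ m → x z = y z) → f x = f y

theorem Win.loc {m : ℕ} {f : (Pt → S.T) → ℝ} (hf : S.Win m f) : Loc f := by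
  refine ⟨Finset.Icc (0 : Pt) (fun _ => (m : ℤ)), fun x y h => hf x y fun z h1 h2 h3 h4 => ?_⟩
  apply h
  rw [Finset.mem_Icc]
  constructor
  · intro i
    fin_cases i
    · exact h1
    · exact h3
  · intro i
    fin_cases i
    · exact h2
    · exact h4

theorem Win.up {m : ℕ} {f : (Pt → S.T) → ℝ} (hf : S.Win m f) :
    S.Win ((S.N - 1 + m) / S.N) (S.up f) := by
  intro y y' h
  unfold SubstSystem.up
  refine Finset.sum_congr rfl fun a ha => Finset.sum_congr rfl fun b hb => ?_
  rw [Finset.mem_range] at ha hb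
  apply hf
  intro z h1 h2 h3 h4
  simp only [sh_apply]
  unfold Sub
  have hN := S.N_pos'
  have bound : ∀ t : ℤ, ∀ c : ℕ, c < S.N → 0 ≤ t → t ≤ m → 0 ≤ (t + c) / (S.N : ℤ) ∧
      (t + c) / (S.N : ℤ) ≤ (((S.N - 1 + m) / S.N : ℕ) : ℤ) := by
    intro t c hc ht1 ht2
    constructor
    · exact Int.ediv_nonneg (by positivity) hN.le
    · push_cast
      apply Int.ediv_le_ediv hN
      have : (c : ℤ) ≤ ((S.N - 1 : ℕ) : ℤ) := by
        have : c ≤ S.N - 1 := by omega
        exact_mod_cast this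
      linarith
  have b0 := bound (z 0) a ha h1 h2
  have b1 := bound (z 1) b hb h3 h4
  rw [h (S.fl (z + pt a b)) b0.1 b0.2 b1.1 b1.2]

/-- window of size one -/
theorem up_eq_of_win_one {f : (Pt → S.T) → ℝ} (hf : S.Win 1 f) {y y' : Pt → S.T}
    (hy : Valid S.H S.V y) (hy' : Valid S.H S.V y') (h0 : y 0 = y' 0) : S.up f y = S.up f y' := by
  unfold SubstSystem.up
  refine Finset.sum_congr rfl fun a ha => Finset.sum_congr rfl fun b hb => ?_
  rw [Finset.mem_range] at ha hb
  apply hf
  intro z h1 h2 h3 h4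
  simp only [sh_apply]
  have hN := S.N_pos'
  obtain ⟨w, c, d, hc, hd, hw⟩ := S.exists_blk (z + pt a b)
  rw [hw, S.Sub_blk y w hc hd, S.Sub_blk y' w hc hd]
  have w0 : z 0 + a = S.N * w 0 + c := congrFun hw 0
  have w1 : z 1 + b = S.N * w 1 + d := congrFun hw 1
  have ha' : (a : ℤ) < S.N := by exact_mod_cast ha
  have hb' : (b : ℤ) < S.N := by exact_mod_cast hb
  have hc' : (c : ℤ) < S.N := by exact_mod_cast hc
  have hd' : (d : ℤ) < S.N := by exact_mod_cast hd
  have ha0 : (0 : ℤ) ≤ a := by positivity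
  have hb0 : (0 : ℤ) ≤ b := by positivity
  have hc0 : (0 : ℤ) ≤ c := by positivity
  have hd0 : (0 : ℤ) ≤ d := by positivity
  push_cast at h2 h4
  have cases1 : ∀ (q c t : ℤ), 0 ≤ c → c < S.N → t = S.N * q + c → 0 ≤ t → t ≤ S.N →
      q = 0 ∨ (q = 1 ∧ c = 0) := by
    intro q c t hc0 hcN ht ht0 htN
    have q0 : 0 ≤ q := by
      by_contra hcon
      push Not at hcon
      nlinarith
    have q1 : q ≤ 1 := by
      by_contra hcon
      push Not at hcon
      have : (2 : ℤ) ≤ q := by omega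
      nlinarith
    rcases eq_or_lt_of_le q0 with h | h
    · exact Or.inl h.symm
    · right
      have hq : q = 1 := by omega
      refine ⟨hq, ?_⟩
      rw [hq] at ht
      linarith
  have r0 := cases1 (w 0) c (z 0 + a) hc0 hc' w0 (by linarith) (by linarith)
  have r1 := cases1 (w 1) d (z 1 + b) hd0 hd' w1 (by linarith) (by linarith)
  rcases r0 with r0 | ⟨r0, c0⟩
  · rcases r1 with r1 | ⟨r1, d0⟩
    · have : w = 0 := pt_ext r0 r1
      rw [this, h0]
    · have : w = 0 + e1 := pt_ext (by simpa using r0) (by simpa using r1)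
      have d0' : d = 0 := by exact_mod_cast d0
      rw [this, d0']
      have hv := (hy 0).2
      have hv' := (hy' 0).2
      rw [← h0] at hv'
      exact S.det_V _ _ _ hv hv' c hc
  · have c0' : c = 0 := by exact_mod_cast c0
    rcases r1 with r1 | ⟨r1, d0⟩
    · have : w = 0 + e0 := pt_ext (by simpa using r0) (by simpa using r1)
      rw [this, c0']
      have hv := (hy 0).1
      have hv' := (hy' 0).1
      rw [← h0] at hv'
      exact S.det_H _ _ _ hv hv' d hd
    · have d0' : d = 0 := by exact_mod_cast d0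
      rw [c0', d0']
      exact S.corner _ _

theorem win_one_mem {f : (Pt → S.T) → ℝ} (hf : S.Win 1 f) : f ∈ S.CC := by
  classical
  apply S.mem_of_up hf.loc
  set φ : S.T → ℝ := fun u => if h : ∃ y, Valid S.H S.V y ∧ y 0 = u then S.up f h.choose else 0
    with hφ
  refine S.CC_of_sub (g := fun y => φ (y 0)) (S.CC_van ?_ ?_) (S.point_mem φ)
  · exact (S.Loc_up hf.loc).sub (Loc.of_point 0 φ)
  · intro y hy
    have hex : ∃ y', Valid S.H S.V y' ∧ y' 0 = y 0 := ⟨y, hy, rfl⟩
    have : φ (y 0) = S.up f hex.choose := by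
      rw [hφ]
      simp only
      rw [dif_pos hex]
    rw [this, S.up_eq_of_win_one hf hy hex.choose_spec.1 hex.choose_spec.2.symm, sub_self]

theorem win_mem (m : ℕ) : ∀ f : (Pt → S.T) → ℝ, S.Win m f → f ∈ S.CC := by
  induction m using Nat.strong_induction_on with
  | _ m ih =>
    intro f hf
    by_cases hm : m ≤ 1
    · apply S.win_one_mem
      intro x y h
      apply hf
      intro z h1 h2 h3 h4
      have hm' : (m : ℤ) ≤ 1 := by exact_mod_cast hm
      exact h z h1 (by push_cast; linarith) h3 (by push_cast; linarith)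
    · apply S.mem_of_up hf.loc
      refine ih _ ?_ _ hf.up
      rw [Nat.div_lt_iff_lt_mul S.N_pos]
      have := S.hN
      obtain ⟨k, hk⟩ : ∃ k, m = k + 2 := ⟨m - 2, by omega⟩
      obtain ⟨l, hl⟩ : ∃ l, S.N = l + 2 := ⟨S.N - 2, by omega⟩
      rw [hk, hl]
      have e : l + 2 - 1 + (k + 2) = l + k + 3 := by omega
      rw [e]
      nlinarith [Nat.zero_le (k * l)]

theorem loc_mem {f : (Pt → S.T) → ℝ} (hf : Loc f) : f ∈ S.CC := by
  classical
  obtain ⟨F, hF⟩ := hf
  obtain ⟨M, hM⟩ : ∃ M : ℕ, ∀ i ∈ F, |i 0| ≤ M ∧ |i 1| ≤ M := by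
    refine ⟨∑ i ∈ F, ((i 0).natAbs + (i 1).natAbs), fun i hi => ?_⟩
    have h := Finset.single_le_sum (f := fun i : Pt => (i 0).natAbs + (i 1).natAbs)
      (fun _ _ => Nat.zero_le _) hi
    have h0 : ((i 0).natAbs : ℤ) ≤ ((∑ i ∈ F, ((i 0).natAbs + (i 1).natAbs) : ℕ) : ℤ) := by
      have : (i 0).natAbs ≤ ∑ i ∈ F, ((i 0).natAbs + (i 1).natAbs) := by omega
      exact_mod_cast this
    have h1 : ((i 1).natAbs : ℤ) ≤ ((∑ i ∈ F, ((i 0).natAbs + (i 1).natAbs) : ℕ) : ℤ) := by
      have : (i 1).natAbs ≤ ∑ i ∈ F, ((i 0).natAbs + (i 1).natAbs) := by omega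
      exact_mod_cast this
    rw [Int.natCast_natAbs] at h0 h1
    exact ⟨h0, h1⟩
  have hf : Loc f := ⟨F, hF⟩
  refine S.CC_of_sub (S.CC_cob hf (fun _ => (M : ℤ))) (S.win_mem (2 * M) _ ?_)
  intro x y h
  apply hF
  intro i hi
  simp only [sh_apply]
  obtain ⟨h0, h1⟩ := hM i hi
  rw [abs_le] at h0 h1
  apply h <;> simp only [Pi.add_apply] <;> push_cast <;> linarith [h0.1, h0.2, h1.1, h1.2]

end SubstSystem

/-- Part B-I. -/
theorem SubstSystem.coh (S : SubstSystem) :
    ∃ (n : ℕ) (H V : Fin n → Fin n → Prop), (∃ x0, Valid H V x0) ∧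
      (∀ x, Valid H V x → ∀ a : Pt, a ≠ 0 → sh a x ≠ x) ∧
      (∀ f : (Pt → Fin n) → ℝ, Loc f → f ∈ Cob H V) := by
  classical
  set e : S.T ≃ Fin (Fintype.card S.T) := Fintype.equivFin S.T with he
  set H : Fin (Fintype.card S.T) → Fin (Fintype.card S.T) → Prop :=
    fun s t => S.H (e.symm s) (e.symm t) with hH
  set V : Fin (Fintype.card S.T) → Fin (Fintype.card S.T) → Prop :=
    fun s t => S.V (e.symm s) (e.symm t) with hV
  have hval : ∀ x : Pt → Fin (Fintype.card S.T),
      Valid H V x ↔ Valid S.H S.V (fun z => e.symm (x z)) := fun x => Iff.rfl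
  refine ⟨Fintype.card S.T, H, V, ?_, ?_, ?_⟩
  · obtain ⟨x, hx⟩ := S.exists_valid
    refine ⟨fun z => e (x z), ?_⟩
    rw [hval]
    simpa using hx
  · intro x hx a ha h
    rw [hval] at hx
    refine S.not_periodic _ hx a ha ?_
    funext z
    have := congrFun h z
    simp only [sh_apply] at this ⊢
    rw [this]
  · intro f hf
    have hf' : Loc (fun y : Pt → S.T => f (fun z => e (y z))) :=
      hf.comp (fun y z => e (y z)) fun z => ⟨{z}, fun x y h => by
        show e (x z) = e (y z)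
        rw [h z (by simp)]⟩
    have h1 := S.loc_mem hf'
    set L : ((Pt → S.T) → ℝ) →ₗ[ℝ] ((Pt → Fin (Fintype.card S.T)) → ℝ) :=
      { toFun := fun g x => g (fun z => e.symm (x z))
        map_add' := fun _ _ => rfl
        map_smul' := fun _ _ => rfl } with hL
    have hle : S.CC ≤ (Cob H V).comap L := by
      refine Submodule.span_le.mpr ?_
      rintro g ((h | ⟨hr, hv⟩) | ⟨k, v, hk, rfl⟩)
      · rw [Set.mem_ofPred_eq] at h
        subst h
        exact Submodule.subset_span (Or.inl (Or.inl rfl))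
      · refine Submodule.subset_span (Or.inl (Or.inr ⟨?_, fun x hx => hv _ ((hval x).mp hx)⟩))
        exact hr.comp (fun y z => e.symm (y z)) fun z => ⟨{z}, fun x y h => by
          show e.symm (x z) = e.symm (y z)
          rw [h z (by simp)]⟩
      · refine Submodule.subset_span (Or.inr ⟨fun x => k (fun z => e.symm (x z)), v, ?_, rfl⟩)
        exact hk.comp (fun y z => e.symm (y z)) fun z => ⟨{z}, fun x y h => by
          show e.symm (x z) = e.symm (y z)
          rw [h z (by simp)]⟩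
    have h2 := hle h1
    have h3 : L (fun y : Pt → S.T => f (fun z => e (y z))) = f := by
      funext x
      simp [hL]
    rw [Submodule.mem_comap, h3] at h2
    exact h2

end Pool.Agent.MPa03d92
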