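import Mathlib

/-!
# MP_a03d92_mp, Part B: common definitions
-/

set_option autoImplicit false

namespace Pool.Agent.MPa03d92

/-- Sites of the square lattice. -/
abbrev Pt := Fin 2 → ℤ

/-- first unit vector -/
def e0 : Pt := ![1, 0]

/-- second unit vector -/
def e1 : Pt := ![0, 1]

variable {T : Type}

/-- Shift: `(sh v x) z = x (z + v)`. -/
def sh (v : Pt) (x : Pt → T) : Pt → T := fun z => x (z + v)

@[simp] theorem sh_apply (v : Pt) (x : Pt → T) (z : Pt) : sh v x z = x (z + v) := rfl

@[simp] theorem sh_zero (x : Pt → T) : sh 0 x = x := by funext z; simp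

theorem sh_sh (v w : Pt) (x : Pt → T) : sh v (sh w x) = sh (v + w) x := by
  funext z; simp [add_assoc]

/-- `x` is a valid configuration. -/
def Valid (H V : T → T → Prop) (x : Pt → T) : Prop :=
  ∀ z, H (x z) (x (z + e0)) ∧ V (x z) (x (z + e1))

/-- Local functions. -/
def Loc (f : (Pt → T) → ℝ) : Prop :=
  ∃ F : Finset Pt, ∀ x y : Pt → T, (∀ i ∈ F, x i = y i) → f x = f y

/-- The space of all functions `c + r + ∑ (k_i - k_i ∘ sh v_i)` with `r` local and vanishing on the
valid configurations and `k_i` local. -/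
def Cob (H V : T → T → Prop) : Submodule ℝ ((Pt → T) → ℝ) :=
  Submodule.span ℝ ({f | f = fun _ => 1} ∪ {r | Loc r ∧ ∀ x, Valid H V x → r x = 0} ∪
    {f | ∃ (k : (Pt → T) → ℝ) (v : Pt), Loc k ∧ f = fun x => k x - k (sh v x)})

end Pool.Agent.MPa03d92
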