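import Pool.Agent.Work.MP_a03d92_mp.PartB.Defs

/-!
# Part B-II : local functions, their fluctuations, compactness
-/

set_option autoImplicit false

open Filter Topology

namespace Pool.Agent.MPa03d92

variable {n : ℕ}

theorem Loc.pconst {T : Type} (c : ℝ) : Loc (T := T) (fun _ => c) := ⟨∅, fun _ _ _ => rfl⟩

theorem Loc.padd {T : Type} {f g : (Pt → T) → ℝ} (hf : Loc f) (hg : Loc g) : Loc (f + g) := by
  obtain ⟨F, hF⟩ := hf
  obtain ⟨G, hG⟩ := hg
  refine ⟨F ∪ G, fun x y h => ?_⟩
  simp only [Pi.add_apply]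
  rw [hF x y fun i hi => h i (Finset.mem_union_left _ hi),
    hG x y fun i hi => h i (Finset.mem_union_right _ hi)]

theorem Loc.smul {T : Type} {f : (Pt → T) → ℝ} (c : ℝ) (hf : Loc f) : Loc (c • f) := by
  obtain ⟨F, hF⟩ := hf
  refine ⟨F, fun x y h => ?_⟩
  simp only [Pi.smul_apply]
  rw [hF x y h]

theorem Loc.zero {T : Type} : Loc (T := T) (0 : (Pt → T) → ℝ) := ⟨∅, fun _ _ _ => rfl⟩

theorem Loc.pcomp_sh {T : Type} {f : (Pt → T) → ℝ} (v : Pt) (hf : Loc f) :
    Loc (fun x => f (sh v x)) := by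
  obtain ⟨F, hF⟩ := hf
  refine ⟨F.image (fun i => i + v), fun x y h => ?_⟩
  apply hF
  intro i hi
  simp only [sh_apply]
  exact h _ (Finset.mem_image_of_mem _ hi)

theorem Loc.psub {T : Type} {f g : (Pt → T) → ℝ} (hf : Loc f) (hg : Loc g) :
    Loc (fun x => f x - g x) := by
  obtain ⟨F, hF⟩ := hf
  obtain ⟨G, hG⟩ := hg
  refine ⟨F ∪ G, fun x y h => ?_⟩
  change f x - g x = f y - g y
  rw [hF x y fun i hi => h i (Finset.mem_union_left _ hi),
    hG x y fun i hi => h i (Finset.mem_union_right _ hi)]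

theorem Loc.locallyConstant {f : (Pt → Fin n) → ℝ} (hf : Loc f) : IsLocallyConstant f := by
  obtain ⟨F, hF⟩ := hf
  rw [IsLocallyConstant.iff_exists_open]
  intro x
  refine ⟨⋂ i ∈ F, {y | y i = x i}, ?_, by simp, ?_⟩
  · refine isOpen_biInter_finset fun i _ => ?_
    have : Continuous fun y : Pt → Fin n => y i := continuous_apply i
    exact (isOpen_discrete {x i}).preimage this
  · intro y hy
    apply hF
    simpa using hy

theorem Loc.continuous {f : (Pt → Fin n) → ℝ} (hf : Loc f) : Continuous f :=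
  hf.locallyConstant.continuous

theorem Loc.bounded {f : (Pt → Fin n) → ℝ} (hf : Loc f) : ∃ C, 0 ≤ C ∧ ∀ x, |f x| ≤ C := by
  obtain ⟨C, hC⟩ := isCompact_univ.exists_bound_of_continuousOn hf.continuous.continuousOn
  refine ⟨max C 0, le_max_right _ _, fun x => ?_⟩
  exact (hC x (Set.mem_univ _)).trans (le_max_left _ _)

/-- total fluctuation -/
noncomputable def D {T : Type} (f : (Pt → T) → ℝ) (Y X : Pt → T) : ℝ :=
  ∑ᶠ z : Pt, (f (sh z Y) - f (sh z X))

theorem supp_finite {T : Type} {f : (Pt → T) → ℝ} (hf : Loc f) {X Y : Pt → T}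
    (h : {i | Y i ≠ X i}.Finite) :
    (Function.support fun z : Pt => f (sh z Y) - f (sh z X)).Finite := by
  obtain ⟨F, hF⟩ := hf
  have : (⋃ i ∈ F, (fun z : Pt => i + z) ⁻¹' {i | Y i ≠ X i}).Finite := by
    refine Set.Finite.biUnion F.finite_toSet fun i _ => ?_
    exact h.preimage (add_right_injective i).injOn
  refine this.subset fun z hz => ?_
  by_contra hcon
  apply hz
  simp only [Set.mem_iUnion, Set.mem_preimage, Set.mem_ofPred_eq, not_exists, not_not] at hcon
  change f (sh z Y) - f (sh z X) = 0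
  rw [hF (sh z Y) (sh z X) fun i hi => hcon i hi, sub_self]

theorem D_add {T : Type} {f g : (Pt → T) → ℝ} (hf : Loc f) (hg : Loc g) {X Y : Pt → T}
    (h : {i | Y i ≠ X i}.Finite) : D (f + g) Y X = D f Y X + D g Y X := by
  unfold D
  rw [← finsum_add_distrib (supp_finite hf h) (supp_finite hg h)]
  refine finsum_congr fun z => ?_
  simp only [Pi.add_apply]; ring

theorem D_smul {T : Type} {f : (Pt → T) → ℝ} (c : ℝ) {X Y : Pt → T} :
    D (c • f) Y X = c * D f Y X := by
  unfold D
  rw [mul_finsum]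
  refine finsum_congr fun z => ?_
  simp only [Pi.smul_apply, smul_eq_mul]; ring

theorem D_cob {T : Type} {k : (Pt → T) → ℝ} (hk : Loc k) (v : Pt) {X Y : Pt → T}
    (h : {i | Y i ≠ X i}.Finite) : D (fun x => k x - k (sh v x)) Y X = 0 := by
  unfold D
  have h1 : ∑ᶠ z : Pt, (k (sh z Y) - k (sh z X)) =
      ∑ᶠ z : Pt, (k (sh (v + z) Y) - k (sh (v + z) X)) :=
    (finsum_comp_equiv (Equiv.addLeft v) (f := fun z => k (sh z Y) - k (sh z X))).symm
  have h2 := supp_finite hk h
  have h3 := supp_finite (hk.pcomp_sh v) h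
  have h4 : ∑ᶠ z : Pt, ((k (sh z Y) - k (sh v (sh z Y))) - (k (sh z X) - k (sh v (sh z X)))) =
      ∑ᶠ z : Pt, (k (sh z Y) - k (sh z X)) - ∑ᶠ z : Pt, (k (sh v (sh z Y)) - k (sh v (sh z X))) := by
    rw [← finsum_sub_distrib h2 h3]
    refine finsum_congr fun z => by ring
  rw [h4, h1]
  simp only [sh_sh, sub_self]

/-- `x` is valid at the site `z` -/
def Good {T : Type} (H V : T → T → Prop) (x : Pt → T) (z : Pt) : Prop :=
  H (x z) (x (z + e0)) ∧ V (x z) (x (z + e1))

theorem Good_sh {T : Type} (H V : T → T → Prop) (x : Pt → T) (v z : Pt) :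
    Good H V (sh v x) z ↔ Good H V x (z + v) := by
  unfold Good
  simp only [sh_apply]
  rw [add_right_comm z e0 v, add_right_comm z e1 v]

/-- violated sites -/
def Bad {T : Type} (H V : T → T → Prop) (x : Pt → T) : Set Pt := {z | ¬ Good H V x z}

theorem Good_congr {T : Type} {H V : T → T → Prop} {x y : Pt → T} {z : Pt}
    (h0 : x z = y z) (h1 : x (z + e0) = y (z + e0)) (h2 : x (z + e1) = y (z + e1)) :
    Good H V x z ↔ Good H V y z := by
  unfold Good
  rw [h0, h1, h2]

theorem Bad_finite {T : Type} {H V : T → T → Prop} {X Y : Pt → T} (hX : Valid H V X)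
    (h : {i | Y i ≠ X i}.Finite) : (Bad H V Y).Finite := by
  have : (⋃ i ∈ ({0, e0, e1} : Finset Pt), (fun z : Pt => z + i) ⁻¹' {i | Y i ≠ X i}).Finite := by
    refine Set.Finite.biUnion (Finset.finite_toSet _) fun i _ => ?_
    exact h.preimage (add_left_injective i).injOn
  refine this.subset fun z hz => ?_
  by_contra hcon
  apply hz
  simp only [Finset.mem_insert, Finset.mem_singleton, Set.mem_iUnion, Set.mem_preimage,
    Set.mem_ofPred_eq, exists_prop, not_exists, not_and, not_not] at hcon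
  refine (Good_congr (y := X) ?_ ?_ ?_).2 (hX z)
  · simpa using hcon 0 (by simp)
  · exact hcon e0 (by simp)
  · exact hcon e1 (by simp)

theorem isClosed_good (H V : Fin n → Fin n → Prop) (z : Pt) :
    IsClopen {x : Pt → Fin n | Good H V x z} := by
  have : {x : Pt → Fin n | Good H V x z} =
      (fun x : Pt → Fin n => ((x z, x (z + e0)), (x z, x (z + e1)))) ⁻¹'
        {p | H p.1.1 p.1.2 ∧ V p.2.1 p.2.2} := rfl
  rw [this]
  refine (isClopen_discrete _).preimage ?_
  fun_prop

theorem exists_radius {H V : Fin n → Fin n → Prop} {r : (Pt → Fin n) → ℝ} (hr : Loc r)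
    (h : ∀ x, Valid H V x → r x = 0) :
    ∃ F : Finset Pt, ∀ x, (∀ z ∈ F, Good H V x z) → r x = 0 := by
  have hc : IsCompact {x : Pt → Fin n | r x ≠ 0} := by
    have h1 : IsClosed ({x : Pt → Fin n | r x = 0}ᶜ) :=
      (hr.locallyConstant.isClopen_fiber 0).compl.1
    exact h1.isCompact
  obtain ⟨u, hu⟩ := hc.elim_finite_subfamily_closed (fun z : Pt => {x : Pt → Fin n | Good H V x z})
    (fun z => (isClosed_good H V z).1) (by
      ext x
      simp only [Set.mem_inter_iff, Set.mem_ofPred_eq, Set.mem_iInter, Set.mem_empty_iff_false,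
        iff_false, not_and]
      intro hx hcon
      exact hx (h x hcon))
  refine ⟨u, fun x hx => ?_⟩
  by_contra hcon
  have : x ∈ ({x : Pt → Fin n | r x ≠ 0} ∩ ⋂ i ∈ u, {x : Pt → Fin n | Good H V x i}) := by
    refine ⟨hcon, ?_⟩
    simpa using hx
  rw [hu] at this
  exact this

theorem Valid.psh {T : Type} {H V : T → T → Prop} {x : Pt → T} (hx : Valid H V x) (v : Pt) :
    Valid H V (sh v x) := fun z => (Good_sh H V x v z).2 (hx (z + v))

theorem energy_van {H V : Fin n → Fin n → Prop} {r : (Pt → Fin n) → ℝ} (hr : Loc r)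
    (h : ∀ x, Valid H V x → r x = 0) :
    ∃ C : ℝ, 0 ≤ C ∧ ∀ X Y : Pt → Fin n, Valid H V X → {i | Y i ≠ X i}.Finite →
      |D r Y X| ≤ C * (Bad H V Y).ncard := by
  classical
  obtain ⟨F, hF⟩ := exists_radius hr h
  obtain ⟨C, hC0, hC⟩ := hr.bounded
  refine ⟨C * F.card, by positivity, fun X Y hX hXY => ?_⟩
  have hB := Bad_finite hX hXY
  set S : Finset Pt := (hB.toFinset ×ˢ F).image (fun p => p.1 - p.2) with hS
  have hsub : Function.support (fun z : Pt => r (Pool.Agent.MPa03d92.sh z Y)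
      - r (Pool.Agent.MPa03d92.sh z X)) ⊆ (S : Set Pt) := by
    intro z hz
    by_contra hcon
    apply hz
    change r (Pool.Agent.MPa03d92.sh z Y) - r (Pool.Agent.MPa03d92.sh z X) = 0
    rw [h _ (hX.psh z), sub_zero]
    apply hF
    intro w hw
    rw [Good_sh]
    by_contra hbad
    apply hcon
    rw [Finset.mem_coe, hS, Finset.mem_image]
    exact ⟨(w + z, w), by simpa [hw, Bad] using hbad, by simp⟩
  unfold D
  rw [finsum_eq_sum_of_support_subset _ hsub]
  calc |∑ z ∈ S, (r (Pool.Agent.MPa03d92.sh z Y) - r (Pool.Agent.MPa03d92.sh z X))|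
      ≤ ∑ z ∈ S, |r (Pool.Agent.MPa03d92.sh z Y) - r (Pool.Agent.MPa03d92.sh z X)| :=
        Finset.abs_sum_le_sum_abs _ _
    _ ≤ ∑ z ∈ S, C := by
        refine Finset.sum_le_sum fun z _ => ?_
        rw [h _ (hX.psh z), sub_zero]
        exact hC _
    _ = S.card * C := by rw [Finset.sum_const, nsmul_eq_mul]
    _ ≤ ((Bad H V Y).ncard * F.card : ℕ) * C := by
        gcongr
        calc S.card ≤ (hB.toFinset ×ˢ F).card := Finset.card_image_le
          _ = (Bad H V Y).ncard * F.card := by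
            rw [Finset.card_product, Set.ncard_eq_toFinset_card _ hB]
    _ = C * F.card * (Bad H V Y).ncard := by push_cast; ring

/-- Every element of `Cob` is local and its total fluctuation over a valid configuration is
controlled by the number of violated sites. -/
theorem energy {H V : Fin n → Fin n → Prop} {f : (Pt → Fin n) → ℝ} (hf : f ∈ Cob H V) :
    Loc f ∧ ∃ C : ℝ, 0 ≤ C ∧ ∀ X Y : Pt → Fin n, Valid H V X → {i | Y i ≠ X i}.Finite →
      |D f Y X| ≤ C * (Bad H V Y).ncard := by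
  unfold Cob at hf
  induction hf using Submodule.span_induction with
  | mem f hf =>
    rcases hf with (hf | ⟨hr, h0⟩) | ⟨k, v, hk, rfl⟩
    · rw [Set.mem_ofPred_eq] at hf
      subst hf
      refine ⟨Loc.pconst 1, 0, le_rfl, fun X Y _ _ => ?_⟩
      simp [D]
    · exact ⟨hr, energy_van hr h0⟩
    · refine ⟨hk.psub (hk.pcomp_sh v), 0, le_rfl, fun X Y _ h => ?_⟩
      rw [D_cob hk v h]; simp
  | zero => exact ⟨Loc.zero, 0, le_rfl, fun X Y _ _ => by simp [D]⟩
  | add f g _ _ hf hg =>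
    obtain ⟨lf, C, hC, h1⟩ := hf
    obtain ⟨lg, C', hC', h2⟩ := hg
    refine ⟨lf.padd lg, C + C', by positivity, fun X Y hX hXY => ?_⟩
    rw [D_add lf lg hXY]
    calc _ ≤ _ := abs_add_le _ _
      _ ≤ _ := add_le_add (h1 X Y hX hXY) (h2 X Y hX hXY)
      _ = _ := by ring
  | smul c f _ hf =>
    obtain ⟨lf, C, hC, h1⟩ := hf
    refine ⟨lf.smul c, |c| * C, by positivity, fun X Y hX hXY => ?_⟩
    rw [D_smul, abs_mul, mul_assoc]
    exact mul_le_mul_of_nonneg_left (h1 X Y hX hXY) (abs_nonneg _)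

/-- The box `[-m, m]^2`. -/
noncomputable def box (m : ℤ) : Finset Pt := Fintype.piFinset fun _ => Finset.Icc (-m) m

theorem mem_box {m : ℤ} {z : Pt} : z ∈ box m ↔ ∀ k, -m ≤ z k ∧ z k ≤ m := by
  simp [box, Fintype.mem_piFinset]

theorem card_box (m : ℕ) : (box m).card = (2 * m + 1) ^ 2 := by
  unfold box
  rw [Fintype.card_piFinset]
  simp only [Int.card_Icc, Finset.prod_const, Finset.card_univ, Fintype.card_fin]
  congr 1
  omega

end Pool.Agent.MPa03d92
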