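import Pool.Agent.Work.MP_a03d92_mp.PartB.Unique

/-!
# Part B-II : existence of an invariant measure on the valid configurations
-/

set_option autoImplicit false

open Filter Topology MeasureTheory
open scoped ENNReal

namespace Pool.Agent.MPa03d92

variable {n : ℕ}

/-- averages of point masses along the box `[0,N)^2` -/
noncomputable def avg (x0 : Pt → Fin n) (N : ℕ) : Measure (Pt → Fin n) :=
  ((N : ℝ≥0∞) * N)⁻¹ • ∑ i ∈ Finset.range N, ∑ j ∈ Finset.range N,
    Measure.dirac (sh ![(i : ℤ), (j : ℤ)] x0)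

theorem avg_prob (x0 : Pt → Fin n) (N : ℕ) : IsProbabilityMeasure (avg x0 (N + 1)) := by
  constructor
  unfold avg
  rw [Measure.smul_apply, Measure.finset_sum_apply]
  have : ∀ i ∈ Finset.range (N + 1), (∑ j ∈ Finset.range (N + 1),
      Measure.dirac (sh ![(i : ℤ), (j : ℤ)] x0) : Measure (Pt → Fin n)) Set.univ = (N + 1 : ℕ) := by
    intro i _
    rw [Measure.finset_sum_apply]
    simp
  rw [Finset.sum_congr rfl this, Finset.sum_const, Finset.card_range, nsmul_eq_mul, smul_eq_mul]
  rw [ENNReal.inv_mul_cancel]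
  · simp
  · exact ENNReal.mul_ne_top (ENNReal.natCast_ne_top _) (ENNReal.natCast_ne_top _)

theorem avg_integral (x0 : Pt → Fin n) (N : ℕ) {f : (Pt → Fin n) → ℝ} (hf : Loc f) :
    ∫ x, f x ∂(avg x0 N) = ((N : ℝ) * N)⁻¹ * ∑ i ∈ Finset.range N, ∑ j ∈ Finset.range N,
      f (sh ![(i : ℤ), (j : ℤ)] x0) := by
  unfold avg
  rw [integral_smul_measure, integral_finset_sum_measure]
  · congr 1
    · simp
    · refine Finset.sum_congr rfl fun i _ => ?_
      rw [integral_finset_sum_measure]
      · refine Finset.sum_congr rfl fun j _ => ?_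
        rw [integral_dirac]
      · intro j _; exact hf.integrable _
  · intro i _
    have : IsFiniteMeasure (∑ j ∈ Finset.range N,
      Measure.dirac (sh ![(i : ℤ), (j : ℤ)] x0) : Measure (Pt → Fin n)) := inferInstance
    exact hf.integrable _

theorem exists_limit (x0 : Pt → Fin n) : ∃ (U : Ultrafilter ℕ) (μ : Measure (Pt → Fin n)),
    (U : Filter ℕ) ≤ atTop ∧ IsProbabilityMeasure μ ∧ ∀ f : (Pt → Fin n) → ℝ, Loc f →
      Tendsto (fun N => ∫ x, f x ∂(avg x0 (N + 1))) U (𝓝 (∫ x, f x ∂μ)) := by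
  let P : ℕ → ProbabilityMeasure (Pt → Fin n) := fun N => ⟨avg x0 (N + 1), avg_prob x0 N⟩
  let U : Ultrafilter ℕ := Ultrafilter.of atTop
  have hne : Nonempty (ProbabilityMeasure (Pt → Fin n)) := ⟨P 0⟩
  have hlim : Tendsto P U (𝓝 (U.map P).lim) := (U.map P).le_nhds_lim
  refine ⟨U, ((U.map P).lim : ProbabilityMeasure (Pt → Fin n)), Ultrafilter.of_le _, inferInstance,
    fun f hf => ?_⟩
  have := ProbabilityMeasure.tendsto_iff_forall_integral_tendsto.1 hlim
    (BoundedContinuousFunction.mkOfCompact ⟨f, hf.continuous⟩)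
  exact this

theorem cast_vec (i j : ℤ) : (e0 + ![i, j] : Pt) = ![i + 1, j] := by
  funext k; fin_cases k <;> simp [e0, add_comm]

theorem cast_vec' (i j : ℤ) : (e1 + ![i, j] : Pt) = ![i, j + 1] := by
  funext k; fin_cases k <;> simp [e1, add_comm]

theorem diff_bound {C : ℝ} (hC0 : 0 ≤ C) (F : ℕ → ℕ → ℝ) (hF : ∀ i j, |F i j| ≤ C) (N : ℕ) :
    |(((N + 1 : ℕ) : ℝ) * (N + 1 : ℕ))⁻¹ * (∑ i ∈ Finset.range (N + 1), ∑ j ∈ Finset.range (N + 1),
      (F (i + 1) j - F i j))| ≤ 2 * C / (N + 1 : ℕ) := by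
  rw [Finset.sum_comm]
  have h1 : ∀ j ∈ Finset.range (N + 1), ∑ i ∈ Finset.range (N + 1), (F (i + 1) j - F i j) =
      F (N + 1) j - F 0 j := fun j _ => Finset.sum_range_sub (fun i => F i j) (N + 1)
  rw [Finset.sum_congr rfl h1, abs_mul]
  have h2 : |∑ j ∈ Finset.range (N + 1), (F (N + 1) j - F 0 j)| ≤ (N + 1 : ℕ) * (2 * C) := by
    calc _ ≤ ∑ j ∈ Finset.range (N + 1), |F (N + 1) j - F 0 j| := Finset.abs_sum_le_sum_abs _ _
      _ ≤ ∑ j ∈ Finset.range (N + 1), (2 * C) := by
          refine Finset.sum_le_sum fun j _ => ?_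
          calc _ ≤ |F (N + 1) j| + |F 0 j| := abs_sub _ _
            _ ≤ 2 * C := by linarith [hF (N + 1) j, hF 0 j]
      _ = _ := by rw [Finset.sum_const, Finset.card_range, nsmul_eq_mul]
  have h3 : (0 : ℝ) < (N + 1 : ℕ) := by positivity
  rw [abs_of_pos (by positivity)]
  calc _ ≤ (((N + 1 : ℕ) : ℝ) * (N + 1 : ℕ))⁻¹ * ((N + 1 : ℕ) * (2 * C)) := by gcongr
    _ = _ := by field_simp

theorem exists_inv {H V : Fin n → Fin n → Prop} {x0 : Pt → Fin n} (h0 : Valid H V x0) :
    ∃ μ : Measure (Pt → Fin n), IsProbabilityMeasure μ ∧ Inv2 μ ∧ ∀ᵐ x ∂μ, Valid H V x := by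
  obtain ⟨U, μ, hU, hμ, hlim⟩ := exists_limit x0
  have hzero : ∀ C : ℝ, Tendsto (fun N : ℕ => 2 * C / ((N + 1 : ℕ) : ℝ)) U (𝓝 0) := by
    intro C
    have : Tendsto (fun N : ℕ => 2 * C / ((N + 1 : ℕ) : ℝ)) atTop (𝓝 0) :=
      (tendsto_const_div_atTop_nhds_zero_nat (2 * C)).comp (tendsto_add_atTop_nat 1)
    exact this.mono_left hU
  -- invariance of the integrals under the two generators
  have key : ∀ v : Pt, (∀ f : (Pt → Fin n) → ℝ, Loc f → ∃ C : ℝ, ∀ N : ℕ,
      |∫ x, f (sh v x) ∂(avg x0 (N + 1)) - ∫ x, f x ∂(avg x0 (N + 1))| ≤ 2 * C / ((N + 1 : ℕ) : ℝ)) →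
      μ.map (sh v) = μ := by
    intro v hv
    have : IsProbabilityMeasure (μ.map (sh v)) :=
      Measure.isProbabilityMeasure_map (measurable_sh v).aemeasurable
    refine ext_local fun f hf => ?_
    rw [integral_map (measurable_sh v).aemeasurable hf.continuous.measurable.aestronglyMeasurable]
    obtain ⟨C, hC⟩ := hv f hf
    have h1 := (hlim _ (hf.pcomp_sh v)).sub (hlim f hf)
    have h2 : Tendsto (fun N => ∫ x, f (sh v x) ∂(avg x0 (N + 1)) - ∫ x, f x ∂(avg x0 (N + 1))) U
        (𝓝 0) := squeeze_zero_norm hC (hzero C)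
    have := tendsto_nhds_unique h1 h2
    linarith
  have i0 : μ.map (sh e0) = μ := by
    refine key e0 fun f hf => ?_
    obtain ⟨C, hC0, hC⟩ := hf.bounded
    refine ⟨C, fun N => ?_⟩
    rw [avg_integral x0 _ (hf.pcomp_sh e0), avg_integral x0 _ hf, ← mul_sub,
      ← Finset.sum_sub_distrib]
    simp only [← Finset.sum_sub_distrib]
    have := diff_bound hC0 (fun i j => f (sh ![(i : ℤ), (j : ℤ)] x0)) (fun i j => hC _) N
    simpa only [sh_sh, cast_vec, Nat.cast_add, Nat.cast_one] using this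
  have i1 : μ.map (sh e1) = μ := by
    refine key e1 fun f hf => ?_
    obtain ⟨C, hC0, hC⟩ := hf.bounded
    refine ⟨C, fun N => ?_⟩
    rw [avg_integral x0 _ (hf.pcomp_sh e1), avg_integral x0 _ hf, ← mul_sub,
      ← Finset.sum_sub_distrib]
    simp only [← Finset.sum_sub_distrib]
    have := diff_bound hC0 (fun j i => f (sh ![(i : ℤ), (j : ℤ)] x0)) (fun i j => hC _) N
    rw [Finset.sum_comm] at this
    simpa only [sh_sh, cast_vec', Nat.cast_add, Nat.cast_one] using this
  refine ⟨μ, hμ, ?_, ?_⟩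
  · -- all shifts
    let G : AddSubgroup Pt :=
      { carrier := {v | μ.map (sh v) = μ}
        add_mem' := by
          intro v w hv hw
          change μ.map (sh (v + w)) = μ
          have : (sh (v + w) : (Pt → Fin n) → (Pt → Fin n)) = sh v ∘ sh w := by
            funext x; simp [sh_sh]
          rw [this, ← Measure.map_map (measurable_sh v) (measurable_sh w)]
          rw [Set.mem_ofPred_eq] at hv hw
          rw [hw, hv]
        zero_mem' := by
          change μ.map (sh 0) = μ
          have : (sh 0 : (Pt → Fin n) → (Pt → Fin n)) = id := by funext x; simp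
          rw [this, Measure.map_id]
        neg_mem' := by
          intro v hv
          change μ.map (sh (-v)) = μ
          rw [Set.mem_ofPred_eq] at hv
          conv_lhs => rw [← hv]
          rw [Measure.map_map (measurable_sh _) (measurable_sh _)]
          have : (sh (-v) ∘ sh v : (Pt → Fin n) → (Pt → Fin n)) = id := by
            funext x; simp [sh_sh]
          rw [this, Measure.map_id] }
    intro v
    have hv : v = v 0 • e0 + v 1 • e1 := by
      funext k; fin_cases k <;> simp [e0, e1]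
    have : v ∈ G := by
      rw [hv]
      exact G.add_mem (G.zsmul_mem i0 _) (G.zsmul_mem i1 _)
    exact this
  · have hz : ∀ z : Pt, ∀ᵐ x ∂μ, Good H V x z := by
      intro z
      have hl : Loc (fun x => bad0 H V (sh z x)) := (Loc_bad0 H V).pcomp_sh z
      have h1 : ∀ N, ∫ x, bad0 H V (sh z x) ∂(avg x0 (N + 1)) = 0 := by
        intro N
        rw [avg_integral x0 _ hl]
        have : ∀ v, bad0 H V (sh z (sh v x0)) = 0 := by
          intro v
          unfold bad0
          rw [if_pos (show Good H V _ 0 from ((h0.psh v).psh z) 0)]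
        simp [this]
      have h2 := hlim _ hl
      simp only [h1] at h2
      have h3 : ∫ x, bad0 H V (sh z x) ∂μ = 0 := tendsto_nhds_unique h2 tendsto_const_nhds
      have h4 : ∀ x : Pt → Fin n, 0 ≤ bad0 H V (sh z x) := by
        intro x; unfold bad0; split_ifs <;> norm_num
      rw [integral_eq_zero_iff_of_nonneg h4 (hl.integrable μ)] at h3
      filter_upwards [h3] with x hx
      by_contra hcon
      rw [Pi.zero_apply] at hx
      unfold bad0 at hx
      rw [if_neg (by rw [Good_sh, zero_add]; exact hcon)] at hx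
      exact one_ne_zero hx
    rw [← ae_all_iff] at hz
    exact hz

end Pool.Agent.MPa03d92
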