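import Pool.Agent.Work.MP_a03d92_mp.PartB.Energy

/-!
# Part B-II : interactions and total fluctuations of local functions
-/

set_option autoImplicit false

open Filter Topology

namespace Pool.Agent.MPa03d92

variable {n : ℕ}

/-- admissible interactions in dimension two -/
def Adm2 (n : ℕ) (Φ : Finset Pt → (Pt → Fin n) → ℝ) : Prop :=
  (∀ (Λ : Finset Pt) (X Y : Pt → Fin n), (∀ i ∈ Λ, X i = Y i) → Φ Λ X = Φ Λ Y) ∧
  (∀ (Λ : Finset Pt) (X : Pt → Fin n) (a : Pt),
      Φ (Λ.image (fun i => i + a)) (fun i => X (i - a)) = Φ Λ X) ∧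
  (∃ R : ℕ, ∀ Λ : Finset Pt,
      (∃ i ∈ Λ, ∃ j ∈ Λ, ∃ k : Fin 2, (R : ℤ) < |i k - j k|) → ∀ X : Pt → Fin n, Φ Λ X = 0)

/-- the relevant sites near a finite set of differences -/
noncomputable def nbh (S : Finset Pt) (R : ℕ) : Finset Pt :=
  (S ×ˢ box (R : ℤ)).image (fun p => p.1 + p.2)

theorem supp_subset {Φ : Finset Pt → (Pt → Fin n) → ℝ} {R : ℕ}
    (h1 : ∀ (Λ : Finset Pt) (X Y : Pt → Fin n), (∀ i ∈ Λ, X i = Y i) → Φ Λ X = Φ Λ Y)
    (h3 : ∀ Λ : Finset Pt,
      (∃ i ∈ Λ, ∃ j ∈ Λ, ∃ k : Fin 2, (R : ℤ) < |i k - j k|) → ∀ X : Pt → Fin n, Φ Λ X = 0)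
    {X Y : Pt → Fin n} (hXY : {i | Y i ≠ X i}.Finite) {Λ : Finset Pt}
    (hΛ : Φ Λ Y - Φ Λ X ≠ 0) :
    Λ.Nonempty ∧ Λ ⊆ nbh hXY.toFinset R ∧ ∀ i ∈ Λ, ∀ j ∈ Λ, j - i ∈ box (R : ℤ) := by
  have hR : ∀ i ∈ Λ, ∀ j ∈ Λ, j - i ∈ box (R : ℤ) := by
    intro i hi j hj
    by_contra hcon
    apply hΛ
    have : ∃ i ∈ Λ, ∃ j ∈ Λ, ∃ k : Fin 2, (R : ℤ) < |i k - j k| := by
      rw [mem_box] at hcon
      push Not at hcon
      obtain ⟨k, hk⟩ := hcon
      refine ⟨i, hi, j, hj, k, ?_⟩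
      simp only [Pi.sub_apply] at hk
      rw [lt_abs]
      by_cases h : -(R : ℤ) ≤ j k - i k
      · right; have := hk h; omega
      · left; omega
    rw [h3 Λ this, h3 Λ this, sub_zero]
  have hne : ∃ i ∈ Λ, Y i ≠ X i := by
    by_contra hcon
    push Not at hcon
    exact hΛ (by rw [h1 Λ Y X hcon, sub_self])
  obtain ⟨i, hi, hYX⟩ := hne
  refine ⟨⟨i, hi⟩, ?_, hR⟩
  intro j hj
  rw [nbh, Finset.mem_image]
  exact ⟨(i, j - i), by simp [hYX, hR i hi j hj], by simp⟩

theorem supp_finite_inter {Φ : Finset Pt → (Pt → Fin n) → ℝ} (hΦ : Adm2 n Φ)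
    {X Y : Pt → Fin n} (hXY : {i | Y i ≠ X i}.Finite) :
    (Function.support fun Λ : Finset Pt => Φ Λ Y - Φ Λ X).Finite := by
  obtain ⟨h1, -, R, h3⟩ := hΦ
  refine (nbh hXY.toFinset R).powerset.finite_toSet.subset fun Λ hΛ => ?_
  rw [Finset.mem_coe, Finset.mem_powerset]
  exact (supp_subset h1 h3 hXY hΛ).2.1

theorem inter_eq_D {Φ : Finset Pt → (Pt → Fin n) → ℝ} (hΦ : Adm2 n Φ) :
    ∃ f : (Pt → Fin n) → ℝ, Loc f ∧ ∀ X Y : Pt → Fin n, {i | Y i ≠ X i}.Finite →
      ∑ᶠ Λ : Finset Pt, (Φ Λ Y - Φ Λ X) = D f Y X := by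
  classical
  obtain ⟨h1, h2, R, h3⟩ := id hΦ
  set A : Finset (Finset Pt) := (box (R : ℤ)).powerset.filter (fun Λ => (0 : Pt) ∈ Λ) with hA
  refine ⟨fun X => ∑ Λ ∈ A, Φ Λ X / Λ.card, ⟨box (R : ℤ), fun x y h => ?_⟩, fun X Y hXY => ?_⟩
  · refine Finset.sum_congr rfl fun Λ hΛ => ?_
    rw [hA, Finset.mem_filter, Finset.mem_powerset] at hΛ
    rw [h1 Λ x y fun i hi => h i (hΛ.1 hi)]
  · have htr : ∀ (z : Pt) (Λ : Finset Pt) (W : Pt → Fin n),
        Φ Λ (sh z W) = Φ (Λ.image (fun i => i + z)) W := by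
      intro z Λ W
      rw [← h2 Λ (sh z W) z]
      congr 1
      funext i
      simp
    set g : Finset Pt → ℝ := fun Λ => Φ Λ Y - Φ Λ X with hg
    have hfin : (Function.support g).Finite := supp_finite_inter hΦ hXY
    have hg0 : ∀ Λ, g Λ ≠ 0 → Λ.Nonempty ∧ Λ ⊆ nbh hXY.toFinset R ∧
        ∀ i ∈ Λ, ∀ j ∈ Λ, j - i ∈ box (R : ℤ) := fun Λ h => supp_subset h1 h3 hXY h
    set Z := nbh hXY.toFinset R with hZ
    set S := hfin.toFinset with hS
    have hmemS : ∀ Λ, Λ ∈ S ↔ g Λ ≠ 0 := by intro Λ; simp [hS]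
    have e1 : ∀ z : Pt, (∑ Λ ∈ A, Φ Λ (sh z Y) / Λ.card) - (∑ Λ ∈ A, Φ Λ (sh z X) / Λ.card) =
        ∑ Λ ∈ A, g (Λ.image (fun i => i + z)) / Λ.card := by
      intro z
      rw [← Finset.sum_sub_distrib]
      refine Finset.sum_congr rfl fun Λ _ => ?_
      rw [htr z Λ Y, htr z Λ X, hg]; ring
    have e2 : D (fun X => ∑ Λ ∈ A, Φ Λ X / Λ.card) Y X =
        ∑ z ∈ Z, ∑ Λ ∈ A, g (Λ.image (fun i => i + z)) / Λ.card := by
      unfold D
      rw [finsum_eq_sum_of_support_subset (s := Z)]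
      · exact Finset.sum_congr rfl fun z _ => e1 z
      · intro z hz
        by_contra hcon
        apply hz
        change (∑ Λ ∈ A, Φ Λ (sh z Y) / Λ.card) - (∑ Λ ∈ A, Φ Λ (sh z X) / Λ.card) = 0
        rw [e1 z]
        refine Finset.sum_eq_zero fun Λ hΛ => ?_
        by_cases h : g (Λ.image (fun i => i + z)) = 0
        · rw [h, zero_div]
        · exfalso
          apply hcon
          apply (hg0 _ h).2.1
          rw [hA, Finset.mem_filter] at hΛ
          rw [Finset.mem_image]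
          exact ⟨0, hΛ.2, by simp⟩
    have e3 : ∀ z ∈ Z, ∑ Λ ∈ A, g (Λ.image (fun i => i + z)) / Λ.card =
        ∑ Λ ∈ S.filter (fun Λ => z ∈ Λ), g Λ / Λ.card := by
      intro z _
      have hinj : Function.Injective (fun i : Pt => i + z) := add_left_injective z
      refine Finset.sum_bij_ne_zero (fun Λ _ _ => Λ.image (fun i => i + z)) ?_ ?_ ?_ ?_
      · intro Λ hΛ h
        have hne : g (Λ.image (fun i => i + z)) ≠ 0 := fun h0 => h (by rw [h0, zero_div])
        rw [hA, Finset.mem_filter] at hΛ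
        rw [Finset.mem_filter, hmemS]
        exact ⟨hne, Finset.mem_image.2 ⟨0, hΛ.2, by simp⟩⟩
      · intro Λ _ _ Λ' _ _ h
        exact Finset.image_injective hinj h
      · intro Λ hΛ h
        rw [Finset.mem_filter, hmemS] at hΛ
        have hback : (Λ.image (fun i => i - z)).image (fun i => i + z) = Λ := by
          rw [Finset.image_image]
          have : ((fun i : Pt => i + z) ∘ fun i : Pt => i - z) = id := by funext i; simp
          rw [this, Finset.image_id]
        refine ⟨Λ.image (fun i => i - z), ?_, ?_, hback⟩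
        · rw [hA, Finset.mem_filter, Finset.mem_powerset]
          constructor
          · intro j hj
            rw [Finset.mem_image] at hj
            obtain ⟨i, hi, rfl⟩ := hj
            exact (hg0 _ hΛ.1).2.2 z hΛ.2 i hi
          · rw [Finset.mem_image]
            exact ⟨z, hΛ.2, by simp⟩
        · rw [hback]
          rw [Finset.card_image_of_injective _ (sub_left_injective (b := z))]
          exact h
      · intro Λ _ _
        rw [Finset.card_image_of_injective _ hinj]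
    rw [e2, Finset.sum_congr rfl e3]
    rw [Finset.sum_comm' (s' := fun Λ => Λ) (t' := S)]
    · rw [finsum_eq_sum _ hfin]
      refine Finset.sum_congr rfl fun Λ hΛ => ?_
      have hΛ' : g Λ ≠ 0 := (hmemS Λ).1 hΛ
      have hc : (Λ.card : ℝ) ≠ 0 := by
        rw [Nat.cast_ne_zero]
        exact (Finset.card_pos.2 (hg0 Λ hΛ').1).ne'
      rw [Finset.sum_const, nsmul_eq_mul]
      field_simp
    · intro z Λ
      rw [Finset.mem_filter]
      constructor
      · rintro ⟨_, h, h'⟩; exact ⟨h', h⟩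
      · rintro ⟨h, h'⟩
        exact ⟨(hg0 Λ ((hmemS Λ).1 h')).2.1 h, h', h⟩

/-- L-shaped triples -/
def tri (z : Pt) : Finset Pt := {z, z + e0, z + e1}

theorem mem_tri {z w : Pt} : w ∈ tri z ↔ w = z ∨ w = z + e0 ∨ w = z + e1 := by
  simp [tri]

theorem tri_injective : Function.Injective tri := by
  intro z w h
  have h1 : z ∈ tri w := by rw [← h, mem_tri]; exact Or.inl rfl
  have h2 : w ∈ tri z := by rw [h, mem_tri]; exact Or.inl rfl
  rw [mem_tri] at h1 h2
  have key : ∀ a b : Pt, a = b ↔ a 0 = b 0 ∧ a 1 = b 1 := by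
    intro a b
    constructor
    · rintro rfl; exact ⟨rfl, rfl⟩
    · rintro ⟨h, h'⟩; funext k; fin_cases k <;> assumption
  simp only [key, Pi.add_apply, e0, e1, Matrix.cons_val_zero, Matrix.cons_val_one] at h1 h2 ⊢
  omega

open Classical in
/-- The interaction: one for every site at which the configuration is not valid. -/
noncomputable def Phi0 (H V : Fin n → Fin n → Prop) (Λ : Finset Pt) (X : Pt → Fin n) : ℝ :=
  if ∃ z, Λ = tri z ∧ ¬ Good H V X z then 1 else 0

open Classical in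
/-- indicator of a violation at `0` -/
noncomputable def bad0 (H V : Fin n → Fin n → Prop) (X : Pt → Fin n) : ℝ :=
  if Good H V X 0 then 0 else 1

theorem Phi0_tri (H V : Fin n → Fin n → Prop) (z : Pt) (X : Pt → Fin n) :
    Phi0 H V (tri z) X = bad0 H V (sh z X) := by
  classical
  have : (∃ z', tri z = tri z' ∧ ¬ Good H V X z') ↔ ¬ Good H V X z := by
    constructor
    · rintro ⟨z', h, h'⟩; rwa [tri_injective h]
    · intro h; exact ⟨z, rfl, h⟩
  have h2 : Good H V (sh z X) 0 ↔ Good H V X z := by rw [Good_sh, zero_add]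
  unfold Phi0 bad0
  by_cases h : Good H V X z <;> simp [this, h2, h]

theorem Phi0_not (H V : Fin n → Fin n → Prop) {Λ : Finset Pt} (h : Λ ∉ Set.range tri)
    (X : Pt → Fin n) : Phi0 H V Λ X = 0 := by
  unfold Phi0
  rw [if_neg]
  rintro ⟨z, hz, -⟩
  exact h ⟨z, hz.symm⟩

theorem Loc_bad0 (H V : Fin n → Fin n → Prop) : Loc (bad0 H V) := by
  classical
  refine ⟨{0, e0, e1}, fun x y h => ?_⟩
  have : Good H V x 0 ↔ Good H V y 0 :=
    Good_congr (h 0 (by simp)) (by simpa using h e0 (by simp)) (by simpa using h e1 (by simp))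
  unfold bad0
  simp only [this]

theorem adm_Phi0 (H V : Fin n → Fin n → Prop) : Adm2 n (Phi0 H V) := by
  classical
  refine ⟨?_, ?_, 1, ?_⟩
  · intro Λ X Y h
    by_cases hΛ : Λ ∈ Set.range tri
    · obtain ⟨z, rfl⟩ := hΛ
      have hg : Good H V X z ↔ Good H V Y z :=
        Good_congr (h _ (mem_tri.2 (Or.inl rfl))) (h _ (mem_tri.2 (Or.inr (Or.inl rfl))))
          (h _ (mem_tri.2 (Or.inr (Or.inr rfl))))
      rw [Phi0_tri, Phi0_tri]
      unfold bad0
      simp only [Good_sh, zero_add, hg]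
    · rw [Phi0_not H V hΛ, Phi0_not H V hΛ]
  · intro Λ X a
    have him : ∀ z, (tri z).image (fun i => i + a) = tri (z + a) := by
      intro z
      ext w
      simp only [tri, Finset.image_insert, Finset.image_singleton]
      rw [add_right_comm z e0 a, add_right_comm z e1 a]
    by_cases hΛ : Λ ∈ Set.range tri
    · obtain ⟨z, rfl⟩ := hΛ
      rw [him, Phi0_tri, Phi0_tri]
      congr 1
      funext i
      simp only [sh_apply]
      congr 1
      abel
    · rw [Phi0_not H V hΛ, Phi0_not H V]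
      rintro ⟨z, hz⟩
      apply hΛ
      refine ⟨z - a, ?_⟩
      have h1 := him (z - a)
      rw [sub_add_cancel, hz] at h1
      exact Finset.image_injective (add_left_injective a) h1
  · rintro Λ ⟨i, hi, j, hj, k, hk⟩ X
    apply Phi0_not
    rintro ⟨z, rfl⟩
    rw [mem_tri] at hi hj
    revert hk
    rw [imp_false, not_lt]
    push_cast
    fin_cases k <;> rcases hi with rfl | rfl | rfl <;> rcases hj with rfl | rfl | rfl <;>
      simp [e0, e1]

theorem inter_Phi0 (H V : Fin n → Fin n → Prop) (X Y : Pt → Fin n) :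
    ∑ᶠ Λ : Finset Pt, (Phi0 H V Λ Y - Phi0 H V Λ X) = D (bad0 H V) Y X := by
  unfold D
  have h1 : ∑ᶠ Λ : Finset Pt, (Phi0 H V Λ Y - Phi0 H V Λ X) =
      ∑ᶠ Λ ∈ Set.range tri, (Phi0 H V Λ Y - Phi0 H V Λ X) := by
    refine finsum_congr fun Λ => ?_
    by_cases h : Λ ∈ Set.range tri
    · simp only [h, finsum_true]
    · simp only [h, finsum_false]
      rw [Phi0_not H V h, Phi0_not H V h, sub_zero]
  rw [h1, finsum_mem_range tri_injective]
  refine finsum_congr fun z => ?_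
  rw [Phi0_tri, Phi0_tri]

theorem D_bad0_valid {H V : Fin n → Fin n → Prop} {X Y : Pt → Fin n} (hX : Valid H V X)
    (hXY : {i | Y i ≠ X i}.Finite) : D (bad0 H V) Y X = (Bad H V Y).ncard := by
  classical
  have hB := Bad_finite hX hXY
  unfold D
  have h0 : ∀ z, bad0 H V (sh z X) = 0 := by
    intro z
    unfold bad0
    rw [if_pos (show Good H V (sh z X) 0 from (hX.psh z) 0)]
  rw [finsum_eq_sum_of_support_subset (s := hB.toFinset)]
  · rw [Set.ncard_eq_toFinset_card _ hB, Finset.card_eq_sum_ones]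
    push_cast
    refine Finset.sum_congr rfl fun z hz => ?_
    rw [Set.Finite.mem_toFinset] at hz
    rw [h0, sub_zero]
    unfold bad0
    rw [if_neg]
    rw [Good_sh, zero_add]; exact hz
  · intro z hz
    by_contra hcon
    apply hz
    change bad0 H V (sh z Y) - bad0 H V (sh z X) = 0
    rw [h0, sub_zero]
    unfold bad0
    rw [if_pos]
    rw [Good_sh, zero_add]
    rw [Set.Finite.coe_toFinset] at hcon
    by_contra h; exact hcon h

end Pool.Agent.MPa03d92
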