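import Pool.Agent.Work.MP_a03d92_mp.PartB.Defs
import Pool.Agent.Work.MP_a03d92_mp.Interface

/-!
# Part B, split into two independent halves (sorry-ed statements; NOT imported by any result)

B-I (helper6): `SubstSystem` => a valid configuration exists, no valid configuration is periodic, every local
function is in `Cob`  (blueprint steps B1-B4, B7, plus transport of the alphabet to `Fin n`).
B-II (helper18): `of_coh` below (blueprint steps B5, B6, B8, B9).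
-/

set_option autoImplicit false

open MeasureTheory

namespace Pool.Agent.MPa03d92

/-- B-II. -/
theorem of_coh (n : ℕ) (H V : Fin n → Fin n → Prop) (x0 : Pt → Fin n) (h0 : Valid H V x0)
    (hnp : ∀ x, Valid H V x → ∀ a : Pt, a ≠ 0 → sh a x ≠ x)
    (hcoh : ∀ f : (Pt → Fin n) → ℝ, Loc f → f ∈ Cob H V) :
    ∃ d : ℕ, 1 ≤ d ∧ ∃ n : ℕ,
    ∃ Adm : (Finset (Fin d → ℤ) → ((Fin d → ℤ) → Fin n) → ℝ) → Prop,
    (∀ Φ, Adm Φ ↔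
      (∀ (Λ : Finset (Fin d → ℤ)) (X Y : (Fin d → ℤ) → Fin n),
          (∀ i ∈ Λ, X i = Y i) → Φ Λ X = Φ Λ Y) ∧
      (∀ (Λ : Finset (Fin d → ℤ)) (X : (Fin d → ℤ) → Fin n) (a : Fin d → ℤ),
          Φ (Λ.image (fun i => i + a)) (fun i => X (i - a)) = Φ Λ X) ∧
      (∃ R : ℕ, ∀ Λ : Finset (Fin d → ℤ),
          (∃ i ∈ Λ, ∃ j ∈ Λ, ∃ k : Fin d, (R : ℤ) < |i k - j k|) →
          ∀ X : (Fin d → ℤ) → Fin n, Φ Λ X = 0)) ∧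
    ∃ GSM : (Finset (Fin d → ℤ) → ((Fin d → ℤ) → Fin n) → ℝ) →
        Measure ((Fin d → ℤ) → Fin n) → Prop,
    (∀ Φ μ, GSM Φ μ ↔
      IsProbabilityMeasure μ ∧
      (∀ a : Fin d → ℤ,
          μ.map (fun X : (Fin d → ℤ) → Fin n => fun i => X (i - a)) = μ) ∧
      (∀ᵐ X ∂μ, ∀ Y : (Fin d → ℤ) → Fin n, {i | Y i ≠ X i}.Finite →
          0 ≤ ∑ᶠ Λ : Finset (Fin d → ℤ), (Φ Λ Y - Φ Λ X))) ∧
    ∃ Φ, Adm Φ ∧ ∃ μ, GSM Φ μ ∧ (∀ ν, GSM Φ ν → ν = μ) ∧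
      μ {X | ∃ a : Fin d → ℤ, a ≠ 0 ∧ (fun i => X (i - a)) = X} = 0 ∧
      ∀ Φ', Adm Φ' → ∃ ε₀ : ℝ, 0 < ε₀ ∧ ∀ ε : ℝ, 0 ≤ ε → ε < ε₀ →
        GSM (fun Λ X => Φ Λ X + ε * Φ' Λ X) μ := by sorry

/-- B-I. -/
theorem SubstSystem.coh (S : SubstSystem) :
    ∃ (n : ℕ) (H V : Fin n → Fin n → Prop), (∃ x0, Valid H V x0) ∧
      (∀ x, Valid H V x → ∀ a : Pt, a ≠ 0 → sh a x ≠ x) ∧
      (∀ f : (Pt → Fin n) → ℝ, Loc f → f ∈ Cob H V) := by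
  sorry

end Pool.Agent.MPa03d92
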