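import Pool.Agent.Work.MP_a03d92_mp.PartB.Defs
import Pool.Agent.Work.MP_a03d92_mp.Interface

/-!
# Part B-I: substitution and desubstitution on configurations
-/

set_option autoImplicit false

namespace Pool.Agent.MPa03d92

@[simp] theorem e0_0 : e0 0 = 1 := rfl
@[simp] theorem e0_1 : e0 1 = 0 := rfl
@[simp] theorem e1_0 : e1 0 = 0 := rfl
@[simp] theorem e1_1 : e1 1 = 1 := rfl

theorem pt_ext {z w : Pt} (h0 : z 0 = w 0) (h1 : z 1 = w 1) : z = w := by
  funext i
  fin_cases i
  · exact h0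
  · exact h1

theorem Valid.sh {T : Type} {H V : T → T → Prop} {x : Pt → T} (h : Valid H V x) (v : Pt) :
    Valid H V (sh v x) := by
  intro z
  have := h (z + v)
  simp only [sh_apply]
  rw [add_right_comm z e0 v, add_right_comm z e1 v]
  exact this

namespace SubstSystem

variable (S : SubstSystem)

theorem N_pos : 0 < S.N := by have := S.hN; omega

theorem N_pos' : (0 : ℤ) < S.N := by exact_mod_cast S.N_pos

/-- floor -/
def fl (z : Pt) : Pt := fun i => z i / (S.N : ℤ)

/-- remainder -/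
def md (z : Pt) (i : Fin 2) : ℕ := (z i % (S.N : ℤ)).toNat

theorem md_cast (z : Pt) (i : Fin 2) : (S.md z i : ℤ) = z i % (S.N : ℤ) :=
  Int.toNat_of_nonneg (Int.emod_nonneg _ S.N_pos'.ne')

theorem md_lt (z : Pt) (i : Fin 2) : S.md z i < S.N := by
  have h := S.md_cast z i
  have h2 := Int.emod_lt_of_pos (z i) S.N_pos'
  omega

/-- the point with quotient `z` and remainder `(a, b)` -/
def blk (z : Pt) (a b : ℕ) : Pt := ![(S.N : ℤ) * z 0 + a, (S.N : ℤ) * z 1 + b]

@[simp] theorem blk_0 (z : Pt) (a b : ℕ) : S.blk z a b 0 = (S.N : ℤ) * z 0 + a := rfl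
@[simp] theorem blk_1 (z : Pt) (a b : ℕ) : S.blk z a b 1 = (S.N : ℤ) * z 1 + b := rfl

theorem divmod {N q a : ℤ} (ha : 0 ≤ a) (haN : a < N) :
    (N * q + a) / N = q ∧ (N * q + a) % N = a := by
  have hN : 0 < N := by omega
  exact (Int.ediv_emod_unique hN).mpr ⟨by ring, ha, haN⟩

theorem fl_blk (z : Pt) {a b : ℕ} (ha : a < S.N) (hb : b < S.N) : S.fl (S.blk z a b) = z := by
  apply pt_ext
  · exact (divmod (by positivity) (by exact_mod_cast ha)).1
  · exact (divmod (by positivity) (by exact_mod_cast hb)).1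

theorem md_blk_0 (z : Pt) {a b : ℕ} (ha : a < S.N) : S.md (S.blk z a b) 0 = a := by
  have h := S.md_cast (S.blk z a b) 0
  rw [blk_0, (divmod (N := (S.N : ℤ)) (q := z 0) (a := (a : ℤ)) (by positivity)
    (by exact_mod_cast ha)).2] at h
  exact_mod_cast h

theorem md_blk_1 (z : Pt) {a b : ℕ} (hb : b < S.N) : S.md (S.blk z a b) 1 = b := by
  have h := S.md_cast (S.blk z a b) 1
  rw [blk_1, (divmod (N := (S.N : ℤ)) (q := z 1) (a := (b : ℤ)) (by positivity)
    (by exact_mod_cast hb)).2] at h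
  exact_mod_cast h

theorem blk_fl (z : Pt) : S.blk (S.fl z) (S.md z 0) (S.md z 1) = z := by
  apply pt_ext
  · rw [blk_0, md_cast]
    exact Int.mul_ediv_add_emod _ _
  · rw [blk_1, md_cast]
    exact Int.mul_ediv_add_emod _ _

theorem exists_blk (z : Pt) : ∃ (w : Pt) (a b : ℕ), a < S.N ∧ b < S.N ∧ z = S.blk w a b :=
  ⟨S.fl z, S.md z 0, S.md z 1, S.md_lt z 0, S.md_lt z 1, (S.blk_fl z).symm⟩

theorem blk_add_e0 (z : Pt) (a b : ℕ) : S.blk z a b + e0 = S.blk z (a + 1) b := by
  apply pt_ext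
  · simp only [Pi.add_apply, blk_0, e0_0]; push_cast; ring
  · simp only [Pi.add_apply, blk_1, e0_1]; ring

theorem blk_add_e1 (z : Pt) (a b : ℕ) : S.blk z a b + e1 = S.blk z a (b + 1) := by
  apply pt_ext
  · simp only [Pi.add_apply, blk_0, e1_0]; ring
  · simp only [Pi.add_apply, blk_1, e1_1]; push_cast; ring

theorem blk_wrap_0 (z : Pt) (b : ℕ) : S.blk z S.N b = S.blk (z + e0) 0 b := by
  apply pt_ext
  · simp only [blk_0, Pi.add_apply, e0_0]; push_cast; ring
  · simp only [blk_1, Pi.add_apply, e0_1]; ring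

theorem blk_wrap_1 (z : Pt) (a : ℕ) : S.blk z a S.N = S.blk (z + e1) a 0 := by
  apply pt_ext
  · simp only [blk_0, Pi.add_apply, e1_0]; ring
  · simp only [blk_1, Pi.add_apply, e1_1]; push_cast; ring

/-- Substitution of configurations. -/
def Sub (y : Pt → S.T) : Pt → S.T := fun z => S.S (y (S.fl z)) (S.md z 0) (S.md z 1)

theorem Sub_blk (y : Pt → S.T) (z : Pt) {a b : ℕ} (ha : a < S.N) (hb : b < S.N) :
    S.Sub y (S.blk z a b) = S.S (y z) a b := by
  unfold Sub
  rw [S.fl_blk z ha hb, S.md_blk_0 z ha, S.md_blk_1 z hb]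

theorem Sub_H (y : Pt → S.T) (w : Pt) {a b : ℕ} (ha : a < S.N) (hb : b < S.N)
    (h : a + 1 < S.N ∨ S.H (y w) (y (w + e0))) :
    S.H (S.Sub y (S.blk w a b)) (S.Sub y (S.blk w a b + e0)) := by
  rw [blk_add_e0]
  by_cases h1 : a + 1 < S.N
  · rw [S.Sub_blk y w ha hb, S.Sub_blk y w h1 hb]
    exact S.S_H _ _ _ h1 hb
  · have h2 := h.resolve_left h1
    have e : a + 1 = S.N := by omega
    have e' : a = S.N - 1 := by omega
    rw [S.Sub_blk y w ha hb, e, blk_wrap_0, S.Sub_blk y _ S.N_pos hb, e']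
    exact (S.H_face _ _).mp h2 b hb

theorem Sub_V (y : Pt → S.T) (w : Pt) {a b : ℕ} (ha : a < S.N) (hb : b < S.N)
    (h : b + 1 < S.N ∨ S.V (y w) (y (w + e1))) :
    S.V (S.Sub y (S.blk w a b)) (S.Sub y (S.blk w a b + e1)) := by
  rw [blk_add_e1]
  by_cases h1 : b + 1 < S.N
  · rw [S.Sub_blk y w ha hb, S.Sub_blk y w ha h1]
    exact S.S_V _ _ _ ha h1
  · have h2 := h.resolve_left h1
    have e : b + 1 = S.N := by omega
    have e' : b = S.N - 1 := by omega
    rw [S.Sub_blk y w ha hb, e, blk_wrap_1, S.Sub_blk y _ ha S.N_pos, e']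
    exact (S.V_face _ _).mp h2 a ha

theorem Sub_valid {y : Pt → S.T} (hy : Valid S.H S.V y) : Valid S.H S.V (S.Sub y) := by
  intro z
  obtain ⟨w, a, b, ha, hb, rfl⟩ := S.exists_blk z
  exact ⟨S.Sub_H y w ha hb (Or.inr (hy w).1), S.Sub_V y w ha hb (Or.inr (hy w).2)⟩

/-! ### Existence of a valid configuration -/

/-- all bonds inside `[0, M)²` are satisfied -/
def OK (M : ℕ) (x : Pt → S.T) : Prop :=
  (∀ z : Pt, 0 ≤ z 0 → z 0 + 1 < M → 0 ≤ z 1 → z 1 < M → S.H (x z) (x (z + e0))) ∧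
  (∀ z : Pt, 0 ≤ z 0 → z 0 < M → 0 ≤ z 1 → z 1 + 1 < M → S.V (x z) (x (z + e1)))

theorem quot_bound {N q a M : ℤ} (hN : 0 < N) (ha : 0 ≤ a) (haN : a < N) (h0 : 0 ≤ N * q + a)
    (h1 : N * q + a < N * M) : 0 ≤ q ∧ q < M := by
  constructor
  · by_contra h
    push Not at h
    nlinarith
  · by_contra h
    push Not at h
    nlinarith

theorem OK_Sub {M : ℕ} {y : Pt → S.T} (hy : S.OK M y) : S.OK (S.N * M) (S.Sub y) := by
  have hN := S.N_pos'
  constructor
  · intro z h1 h2 h3 h4
    obtain ⟨w, a, b, ha, hb, rfl⟩ := S.exists_blk z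
    have ha' : (a : ℤ) < S.N := by exact_mod_cast ha
    have hb' : (b : ℤ) < S.N := by exact_mod_cast hb
    rw [blk_0] at h1 h2
    rw [blk_1] at h3 h4
    push_cast at h2 h4
    apply S.Sub_H y w ha hb
    by_cases h5 : a + 1 < S.N
    · exact Or.inl h5
    · right
      have e : (a : ℤ) + 1 = S.N := by
        have : a + 1 = S.N := by omega
        exact_mod_cast this
      have b1 := quot_bound (M := (M : ℤ)) hN (by positivity) ha' h1 (by linarith)
      have b2 := quot_bound hN (by positivity) hb' h3 h4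
      refine hy.1 w b1.1 ?_ b2.1 b2.2
      by_contra hcon
      push Not at hcon
      nlinarith
  · intro z h1 h2 h3 h4
    obtain ⟨w, a, b, ha, hb, rfl⟩ := S.exists_blk z
    have ha' : (a : ℤ) < S.N := by exact_mod_cast ha
    have hb' : (b : ℤ) < S.N := by exact_mod_cast hb
    rw [blk_0] at h1 h2
    rw [blk_1] at h3 h4
    push_cast at h2 h4
    apply S.Sub_V y w ha hb
    by_cases h5 : b + 1 < S.N
    · exact Or.inl h5
    · right
      have e : (b : ℤ) + 1 = S.N := by
        have : b + 1 = S.N := by omega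
        exact_mod_cast this
      have b1 := quot_bound hN (by positivity) ha' h1 h2
      have b2 := quot_bound (M := (M : ℤ)) hN (by positivity) hb' h3 (by linarith)
      refine hy.2 w b1.1 b1.2 b2.1 ?_
      by_contra hcon
      push Not at hcon
      nlinarith

theorem exists_OK (j : ℕ) : ∃ x, S.OK (S.N ^ j) x := by
  induction j with
  | zero =>
    refine ⟨fun _ => Classical.arbitrary _, ?_, ?_⟩
    · intro z h1 h2 h3 h4
      simp at h2
      omega
    · intro z h1 h2 h3 h4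
      simp at h4
      omega
  | succ j ih =>
    obtain ⟨x, hx⟩ := ih
    refine ⟨S.Sub x, ?_⟩
    rw [pow_succ, mul_comm]
    exact S.OK_Sub hx

theorem exists_valid : ∃ x, Valid S.H S.V x := by
  let _ : TopologicalSpace S.T := ⊥
  have : DiscreteTopology S.T := ⟨rfl⟩
  set K : ℕ → Set (Pt → S.T) := fun k => {x | ∀ z : Pt, |z 0| ≤ k → |z 1| ≤ k →
    S.H (x z) (x (z + e0)) ∧ S.V (x z) (x (z + e1))} with hK
  have hcl : ∀ k, IsClosed (K k) := by
    intro k
    have : K k = ⋂ z : Pt, {x | |z 0| ≤ k → |z 1| ≤ k →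
      S.H (x z) (x (z + e0)) ∧ S.V (x z) (x (z + e1))} := by
      ext x; simp [hK]
    rw [this]
    refine isClosed_iInter fun z => ?_
    have hc : Continuous (fun x : Pt → S.T => (x z, x (z + e0), x (z + e1))) := by fun_prop
    exact (isClosed_discrete {p : S.T × S.T × S.T | |z 0| ≤ k → |z 1| ≤ k →
      S.H p.1 p.2.1 ∧ S.V p.1 p.2.2}).preimage hc
  have hne : ∀ k, (K k).Nonempty := by
    intro k
    obtain ⟨x, hx⟩ := S.exists_OK (2 * k + 2)
    have hlt : 2 * k + 2 < S.N ^ (2 * k + 2) := Nat.lt_pow_self S.hN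
    have hlt' : (2 * k + 2 : ℤ) < ((S.N ^ (2 * k + 2) : ℕ) : ℤ) := by exact_mod_cast hlt
    refine ⟨sh (fun _ => (k : ℤ)) x, ?_⟩
    intro z h1 h2
    rw [abs_le] at h1 h2
    simp only [sh_apply]
    have e1' : z + e0 + (fun _ => (k : ℤ)) = z + (fun _ => (k : ℤ)) + e0 := add_right_comm _ _ _
    have e2' : z + e1 + (fun _ => (k : ℤ)) = z + (fun _ => (k : ℤ)) + e1 := add_right_comm _ _ _
    rw [e1', e2']
    constructor
    · apply hx.1 <;> simp only [Pi.add_apply] <;> omega
    · apply hx.2 <;> simp only [Pi.add_apply] <;> omega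
  have hdec : ∀ k, K (k + 1) ⊆ K k := by
    intro k x hx z h1 h2
    exact hx z (h1.trans (by push_cast; omega)) (h2.trans (by push_cast; omega))
  obtain ⟨x, hx⟩ := IsCompact.nonempty_iInter_of_sequence_nonempty_isCompact_isClosed K hdec hne
    (hcl 0).isCompact hcl
  refine ⟨x, fun z => ?_⟩
  have h := Set.mem_iInter.mp hx (max (z 0).natAbs (z 1).natAbs)
  apply h z <;> push_cast <;> simp

/-! ### Positions -/

/-- Displacements along which the positions behave as expected. -/
def posGroup (x : Pt → S.T) : AddSubgroup Pt where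
  carrier := {w | ∀ z, (S.px (x (z + w)) : ZMod S.N) = S.px (x z) + (w 0 : ZMod S.N) ∧
    (S.py (x (z + w)) : ZMod S.N) = S.py (x z) + (w 1 : ZMod S.N)}
  zero_mem' := by intro z; simp
  add_mem' := by
    intro v w hv hw z
    have h1 := hv z
    have h2 := hw (z + v)
    rw [← add_assoc, h2.1, h2.2, h1.1, h1.2]
    simp only [Pi.add_apply]
    push_cast
    constructor <;> ring
  neg_mem' := by
    intro w hw z
    have h := hw (z + -w)
    rw [neg_add_cancel_right] at h
    rw [h.1, h.2]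
    simp only [Pi.neg_apply]
    push_cast
    constructor <;> ring

theorem mem_posGroup {x : Pt → S.T} (hx : Valid S.H S.V x) (w : Pt) : w ∈ S.posGroup x := by
  have h0 : e0 ∈ S.posGroup x := by
    intro z
    have h := S.H_pos _ _ (hx z).1
    rw [h.1, h.2]
    simp
  have h1 : e1 ∈ S.posGroup x := by
    intro z
    have h := S.V_pos _ _ (hx z).2
    rw [h.1, h.2]
    simp
  have hw : w = w 0 • e0 + w 1 • e1 := by
    apply pt_ext <;> simp
  rw [hw]
  exact (S.posGroup x).add_mem ((S.posGroup x).zsmul_mem h0 _) ((S.posGroup x).zsmul_mem h1 _)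

theorem nat_eq_of_zmod {a b : ℕ} (ha : a < S.N) (hb : b < S.N)
    (h : (a : ZMod S.N) = (b : ZMod S.N)) : a = b := by
  rw [ZMod.natCast_eq_natCast_iff'] at h
  rwa [Nat.mod_eq_of_lt ha, Nat.mod_eq_of_lt hb] at h

theorem pos_blk {x : Pt → S.T} (hx : Valid S.H S.V x) (h0 : S.px (x 0) = 0) (h1 : S.py (x 0) = 0)
    (z : Pt) {a b : ℕ} (ha : a < S.N) (hb : b < S.N) :
    S.px (x (S.blk z a b)) = a ∧ S.py (x (S.blk z a b)) = b := by
  have h := S.mem_posGroup hx (S.blk z a b) 0
  rw [zero_add, h0, h1] at h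
  constructor
  · apply S.nat_eq_of_zmod (S.px_lt _) ha
    rw [h.1]
    simp
  · apply S.nat_eq_of_zmod (S.py_lt _) hb
    rw [h.2]
    simp

/-! ### Desubstitution -/

open Classical in
/-- an element with the given property, if there is one -/
noncomputable def pick (p : S.T → Prop) : S.T :=
  if h : ∃ u, p u then h.choose else Classical.arbitrary _

/-- Desubstitution. -/
noncomputable def De (Y : Pt → S.T) : Pt → S.T := fun z =>
  S.pick (fun u => ∀ a b, a < S.N → b < S.N → Y (S.blk z a b) = S.S u a b)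

theorem De_spec {Y : Pt → S.T} {z : Pt}
    (h : ∃ u, ∀ a b, a < S.N → b < S.N → Y (S.blk z a b) = S.S u a b) :
    ∀ a b, a < S.N → b < S.N → Y (S.blk z a b) = S.S (S.De Y z) a b := by
  unfold De pick
  rw [dif_pos h]
  exact h.choose_spec

theorem De_congr {Y Y' : Pt → S.T} {z z' : Pt}
    (h : ∀ a b, a < S.N → b < S.N → Y (S.blk z a b) = Y' (S.blk z' a b)) :
    S.De Y z = S.De Y' z' := by
  unfold De
  have e : (fun u => ∀ a b, a < S.N → b < S.N → Y (S.blk z a b) = S.S u a b) =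
      (fun u => ∀ a b, a < S.N → b < S.N → Y' (S.blk z' a b) = S.S u a b) := by
    funext u
    apply propext
    constructor
    · intro h1 a b ha hb
      rw [← h a b ha hb]
      exact h1 a b ha hb
    · intro h1 a b ha hb
      rw [h a b ha hb]
      exact h1 a b ha hb
  exact congrArg S.pick e

theorem De_sh (Y : Pt → S.T) (v : Pt) : S.De (sh ((S.N : ℤ) • v) Y) = sh v (S.De Y) := by
  funext z
  apply S.De_congr
  intro a b _ _
  simp only [sh_apply]
  congr 1
  apply pt_ext
  · simp only [Pi.add_apply, blk_0, Pi.smul_apply, smul_eq_mul]; ring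
  · simp only [Pi.add_apply, blk_1, Pi.smul_apply, smul_eq_mul]; ring

theorem De_Sub (y : Pt → S.T) : S.De (S.Sub y) = y := by
  funext z
  have h := S.De_spec (Y := S.Sub y) (z := z) ⟨y z, fun a b ha hb => S.Sub_blk y z ha hb⟩
  apply S.S_inj
  intro a b ha hb
  rw [← h a b ha hb, S.Sub_blk y z ha hb]

theorem exists_u {x : Pt → S.T} (hx : Valid S.H S.V x) (h0 : S.px (x 0) = 0)
    (h1 : S.py (x 0) = 0) (z : Pt) :
    ∃ u, ∀ a b, a < S.N → b < S.N → x (S.blk z a b) = S.S u a b := by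
  refine S.force (fun a b => x (S.blk z a b)) (fun a b ha hb => S.pos_blk hx h0 h1 z ha hb)
    (fun a b _ _ => ?_) (fun a b _ _ => ?_)
  · have := (hx (S.blk z a b)).1
    rwa [blk_add_e0] at this
  · have := (hx (S.blk z a b)).2
    rwa [blk_add_e1] at this

theorem Sub_De {x : Pt → S.T} (hx : Valid S.H S.V x) (h0 : S.px (x 0) = 0)
    (h1 : S.py (x 0) = 0) : S.Sub (S.De x) = x := by
  funext z
  obtain ⟨w, a, b, ha, hb, rfl⟩ := S.exists_blk z
  rw [S.Sub_blk _ w ha hb]
  exact (S.De_spec (S.exists_u hx h0 h1 w) a b ha hb).symm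

theorem De_valid {x : Pt → S.T} (hx : Valid S.H S.V x) (h0 : S.px (x 0) = 0)
    (h1 : S.py (x 0) = 0) : Valid S.H S.V (S.De x) := by
  have hN := S.N_pos
  intro z
  constructor
  · rw [S.H_face]
    intro b hb
    rw [← S.De_spec (S.exists_u hx h0 h1 z) (S.N - 1) b (by omega) hb,
      ← S.De_spec (S.exists_u hx h0 h1 (z + e0)) 0 b hN hb, ← blk_wrap_0]
    have := (hx (S.blk z (S.N - 1) b)).1
    rwa [blk_add_e0, Nat.sub_add_cancel hN] at this
  · rw [S.V_face]
    intro a ha
    rw [← S.De_spec (S.exists_u hx h0 h1 z) a (S.N - 1) ha (by omega),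
      ← S.De_spec (S.exists_u hx h0 h1 (z + e1)) a 0 ha hN, ← blk_wrap_1]
    have := (hx (S.blk z a (S.N - 1))).2
    rwa [blk_add_e1, Nat.sub_add_cancel hN] at this

/-! ### No valid configuration is periodic -/

/-- the position vector -/
def pv (t : S.T) : Pt := ![S.px t, S.py t]

theorem px_sh {x : Pt → S.T} (hx : Valid S.H S.V x) :
    S.px (sh (-S.pv (x 0)) x 0) = 0 ∧ S.py (sh (-S.pv (x 0)) x 0) = 0 := by
  have h := S.mem_posGroup hx (-S.pv (x 0)) 0
  simp only [sh_apply]
  have e0' : (-S.pv (x 0)) 0 = -(S.px (x 0) : ℤ) := rfl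
  have e1' : (-S.pv (x 0)) 1 = -(S.py (x 0) : ℤ) := rfl
  rw [e0', e1'] at h
  constructor
  · apply S.nat_eq_of_zmod (S.px_lt _) S.N_pos
    rw [h.1]; push_cast; ring
  · apply S.nat_eq_of_zmod (S.py_lt _) S.N_pos
    rw [h.2]; push_cast; ring

theorem not_periodic_aux (m : ℕ) : ∀ (x : Pt → S.T), Valid S.H S.V x → ∀ a : Pt,
    (a 0).natAbs + (a 1).natAbs ≤ m → sh a x = x → a = 0 := by
  induction m with
  | zero =>
    intro x _ a ha _
    apply pt_ext
    · show a 0 = 0; omega
    · show a 1 = 0; omega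
  | succ m ih =>
    intro x hx a ha hxa
    have h := S.mem_posGroup hx a 0
    have hxa0 : x (0 + a) = x 0 := congrFun hxa 0
    rw [hxa0] at h
    have d0 : (S.N : ℤ) ∣ a 0 := by
      rw [← ZMod.intCast_zmod_eq_zero_iff_dvd]
      have := h.1
      exact (add_eq_left.mp this.symm)
    have d1 : (S.N : ℤ) ∣ a 1 := by
      rw [← ZMod.intCast_zmod_eq_zero_iff_dvd]
      have := h.2
      exact (add_eq_left.mp this.symm)
    obtain ⟨q0, hq0⟩ := d0
    obtain ⟨q1, hq1⟩ := d1
    by_cases hz : a = 0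
    · exact hz
    exfalso
    set q : Pt := ![q0, q1] with hq
    have haq : a = (S.N : ℤ) • q := by
      apply pt_ext
      · simp [hq, hq0]
      · simp [hq, hq1]
    set x' := sh (-S.pv (x 0)) x with hx'
    have hv' : Valid S.H S.V x' := hx.sh _
    obtain ⟨p0, p1⟩ := S.px_sh hx
    have hax' : sh ((S.N : ℤ) • q) x' = x' := by
      rw [hx', sh_sh, add_comm, ← sh_sh, ← haq, hxa]
    have hD : sh q (S.De x') = S.De x' := by rw [← De_sh, hax']
    have hN2 : (2 : ℤ) ≤ S.N := by exact_mod_cast S.hN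
    have hlt : ∀ t : ℤ, (t ≠ 0 → t.natAbs < ((S.N : ℤ) * t).natAbs) ∧
        t.natAbs ≤ ((S.N : ℤ) * t).natAbs := by
      intro t
      rw [Int.natAbs_mul]
      have e : (S.N : ℤ).natAbs = S.N := rfl
      rw [e]
      have := S.hN
      constructor
      · intro ht
        have : 0 < t.natAbs := Int.natAbs_pos.mpr ht
        nlinarith
      · nlinarith [Nat.zero_le t.natAbs]
    have hq0' := hlt q0
    have hq1' := hlt q1
    have hqne : q0 ≠ 0 ∨ q1 ≠ 0 := by
      by_contra hcon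
      push Not at hcon
      apply hz
      apply pt_ext
      · rw [hq0, hcon.1]; simp
      · rw [hq1, hcon.2]; simp
    rw [hq0, hq1] at ha
    have hqz : q = 0 := by
      refine ih (S.De x') (S.De_valid hv' p0 p1) q ?_ hD
      show (q0).natAbs + (q1).natAbs ≤ m
      rcases hqne with h | h
      · have := hq0'.1 h
        have := hq1'.2
        omega
      · have := hq1'.1 h
        have := hq0'.2
        omega
    rcases hqne with h | h
    · exact h (congrFun hqz 0)
    · exact h (congrFun hqz 1)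

theorem not_periodic (x : Pt → S.T) (hx : Valid S.H S.V x) (a : Pt) (ha : a ≠ 0) :
    sh a x ≠ x := fun h => ha (S.not_periodic_aux _ x hx a le_rfl h)

end SubstSystem

end Pool.Agent.MPa03d92
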