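import Pool.Agent.Work.MP_a03d92_mp.PartB.Interact

/-!
# Part B-II : invariant measures on the valid configurations
-/

set_option autoImplicit false

open Filter Topology MeasureTheory

namespace Pool.Agent.MPa03d92

variable {n : ℕ}

theorem continuous_sh (v : Pt) : Continuous (sh v : (Pt → Fin n) → (Pt → Fin n)) :=
  continuous_pi fun z => continuous_apply (z + v)

theorem measurable_sh (v : Pt) : Measurable (sh v : (Pt → Fin n) → (Pt → Fin n)) :=
  (continuous_sh v).measurable

/-- shift invariance -/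
def Inv2 (ν : Measure (Pt → Fin n)) : Prop := ∀ v : Pt, ν.map (sh v) = ν

theorem Loc.integrable {f : (Pt → Fin n) → ℝ} (hf : Loc f) (ν : Measure (Pt → Fin n))
    [IsFiniteMeasure ν] : Integrable f ν := by
  obtain ⟨C, -, hC⟩ := hf.bounded
  refine Integrable.of_bound hf.continuous.measurable.aestronglyMeasurable C ?_
  exact Eventually.of_forall hC

theorem integral_shift {ν : Measure (Pt → Fin n)} (hν : Inv2 ν) {f : (Pt → Fin n) → ℝ}
    (hf : Loc f) (v : Pt) : ∫ x, f (sh v x) ∂ν = ∫ x, f x ∂ν := by
  conv_rhs => rw [← hν v]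
  rw [integral_map (measurable_sh v).aemeasurable hf.continuous.measurable.aestronglyMeasurable]

/-- Every element of `Cob` has the same integral with respect to all shift invariant
probability measures carried by the valid configurations. -/
theorem integral_const {H V : Fin n → Fin n → Prop} {f : (Pt → Fin n) → ℝ} (hf : f ∈ Cob H V) :
    Loc f ∧ ∃ c : ℝ, ∀ ν : Measure (Pt → Fin n), IsProbabilityMeasure ν → Inv2 ν →
      (∀ᵐ x ∂ν, Valid H V x) → ∫ x, f x ∂ν = c := by
  unfold Cob at hf
  induction hf using Submodule.span_induction with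
  | mem f hf =>
    rcases hf with (hf | ⟨hr, h0⟩) | ⟨k, v, hk, rfl⟩
    · rw [Set.mem_ofPred_eq] at hf
      subst hf
      refine ⟨Loc.pconst 1, 1, fun ν _ _ _ => ?_⟩
      simp
    · refine ⟨hr, 0, fun ν _ _ hv => ?_⟩
      rw [integral_congr_ae (g := fun _ => (0 : ℝ)) (hv.mono fun x hx => h0 x hx)]
      simp
    · refine ⟨hk.psub (hk.pcomp_sh v), 0, fun ν _ hν _ => ?_⟩
      rw [integral_sub (hk.integrable ν) ((hk.pcomp_sh v).integrable ν), integral_shift hν hk,
        sub_self]
  | zero => exact ⟨Loc.zero, 0, fun ν _ _ _ => by simp⟩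
  | add f g _ _ hf hg =>
    obtain ⟨lf, c, h1⟩ := hf
    obtain ⟨lg, c', h2⟩ := hg
    refine ⟨lf.padd lg, c + c', fun ν p hν hv => ?_⟩
    rw [← h1 ν p hν hv, ← h2 ν p hν hv, ← integral_add (lf.integrable ν) (lg.integrable ν)]
    rfl
  | smul c f _ hf =>
    obtain ⟨lf, c', h1⟩ := hf
    refine ⟨lf.smul c, c * c', fun ν p hν hv => ?_⟩
    rw [← h1 ν p hν hv, ← integral_const_mul]
    rfl

/-- Two probability measures with the same integrals of local functions are equal. -/
theorem ext_local {μ ν : Measure (Pt → Fin n)} [IsProbabilityMeasure μ] [IsProbabilityMeasure ν]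
    (h : ∀ f : (Pt → Fin n) → ℝ, Loc f → ∫ x, f x ∂μ = ∫ x, f x ∂ν) : μ = ν := by
  refine ext_of_generate_finite (measurableCylinders fun _ : Pt => Fin n)
    generateFrom_measurableCylinders.symm isPiSystem_measurableCylinders ?_ (by simp)
  intro s hs
  have hms : MeasurableSet s := by
    rw [← generateFrom_measurableCylinders]
    exact MeasurableSpace.measurableSet_generateFrom hs
  rw [mem_measurableCylinders] at hs
  obtain ⟨F, S, -, rfl⟩ := hs
  have hloc : Loc ((cylinder F S).indicator (1 : (Pt → Fin n) → ℝ)) := by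
    classical
    refine ⟨F, fun x y hxy => ?_⟩
    have : F.restrict x = F.restrict y := by
      funext i; exact hxy i i.2
    have h' : x ∈ cylinder F S ↔ y ∈ cylinder F S := by
      rw [mem_cylinder, mem_cylinder, this]
    simp only [Set.indicator, h', Pi.one_apply]
  have h2 := h _ hloc
  rw [integral_indicator_one hms, integral_indicator_one hms] at h2
  exact (measureReal_eq_measureReal_iff).1 h2

theorem unique_inv {H V : Fin n → Fin n → Prop}
    (hcoh : ∀ f : (Pt → Fin n) → ℝ, Loc f → f ∈ Cob H V) {μ ν : Measure (Pt → Fin n)}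
    (pμ : IsProbabilityMeasure μ) (pν : IsProbabilityMeasure ν) (iμ : Inv2 μ) (iν : Inv2 ν)
    (vμ : ∀ᵐ x ∂μ, Valid H V x) (vν : ∀ᵐ x ∂ν, Valid H V x) : μ = ν := by
  refine ext_local fun f hf => ?_
  obtain ⟨-, c, hc⟩ := integral_const (hcoh f hf)
  rw [hc μ pμ iμ vμ, hc ν pν iν vν]

end Pool.Agent.MPa03d92
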